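import Pool.Agent.H18.Glue.Defs
import Pool.Graph.R_seed8.W458.RK.Lin

/-!
# Generalised eigenvectors of the Frobenius endomorphisms on products
-/

set_option autoImplicit false

open CategoryTheory AlgebraicGeometry

universe u v

namespace Pool.Agent.H18.Glue

open Pool.Agent.H914 Pool.Agent.H914.VarClass Pool.Agent.H914.VarClass.Obj
  Pool.Agent.H914.WeilCohomology Pool.Agent.H281R3.HT Pool.Agent.Y133.Half Pool.Agent.W458.MF
  Pool.Agent.W536.RR

variable {k : Type u} [Field k] {𝒱 : VarClass k} {ops : CycleOps 𝒱}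
  {W : WeilCohomology.{u, v} ops} {q : ℕ} {X Y Z : 𝒱.Obj} {f : X ⟶ X} {g : Y ⟶ Y}

/-- The generalised eigenspace of `f` for the eigenvalue `α ≠ 0` in degree `i`. -/
noncomputable def upart (W : WeilCohomology.{u, v} ops) {X : 𝒱.Obj} (f : X ⟶ X) (i : ℕ)
    (α : W.Kˣ) : Submodule W.K (W.H X) :=
  part W f i α

/-- `l` is a frequency of the class `C`. -/
def IsFreq' (W : WeilCohomology.{u, v} ops) {q : ℕ} (hq : q ≠ 0) (C : Cls 𝒱) (l : Freq W.K) : Prop :=
  ∃ (X : 𝒱.Obj) (f : X ⟶ X) (i : ℕ) (α : W.Kˣ), C X f ∧ (∃ x ∈ upart W f i α, x ≠ 0) ∧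
    EqMod (tw W.K hq) l (fr i α)

/-- The pair `(l, m)` of frequencies is *realised* by one algebraic cycle. -/
def Realised' (W : WeilCohomology.{u, v} ops) {q : ℕ} (hq : q ≠ 0) (C D : Cls 𝒱) (p : Pair W.K) :
    Prop :=
  ∃ (X : 𝒱.Obj) (f : X ⟶ X) (Y : 𝒱.Obj) (g : Y ⟶ Y) (i j c : ℕ) (α β : W.Kˣ) (u : W.H X)
    (w : W.H Y) (z : (X.prod Y).Cycles), C X f ∧ D Y g ∧ (X.prod Y).IsCyc c z ∧
    u ∈ upart W f i α ∧ w ∈ upart W g j β ∧
    InvMod (tw W.K hq) p.1 (fr i α) ∧ InvMod (tw W.K hq) p.2 (fr j β) ∧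
    W.tr (X.prod Y) (W.cl _ z * ext W u w) ≠ 0

/-- The pair `p` of frequencies belongs to Tate classes over the extension of degree `s` on products
of the varieties in `C` and in `D`. -/
def OnProducts' (W : WeilCohomology.{u, v} ops) {q : ℕ} (hq : q ≠ 0) (C D : Cls 𝒱) (s : ℕ)
    (p : Pair W.K) : Prop :=
  IsFreq' W hq C p.1 ∧ IsFreq' W hq D p.2 ∧ IsTatePair W.K hq s p

/-- The sum of the `H(X)_l ⊗ H(Y)_m` over the pairs of frequencies `(l, m)` in `S`. -/
noncomputable def pieces' (W : WeilCohomology.{u, v} ops) {X Y : 𝒱.Obj} (f : X ⟶ X) (g : Y ⟶ Y)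
    (S : Set (Pair W.K)) : Submodule W.K (W.H (X.prod Y)) :=
  Submodule.span W.K {c | ∃ (i j : ℕ) (α β : W.Kˣ) (x : W.H X) (y : W.H Y),
    x ∈ upart W f i α ∧ y ∈ upart W g j β ∧ (fr i α, fr j β) ∈ S ∧ c = ext W x y}

lemma isVec_iff {l : Freq W.K} {x : W.H X} :
    IsVec W f l x ↔ ∃ (i : ℕ) (α : W.Kˣ), l = fr i α ∧ x ∈ upart W f i α := by
  constructor
  · rintro ⟨i, hi, hx⟩
    refine ⟨i, valOf l, Prod.ext ?_ rfl, hx⟩
    change l.1 = Multiplicative.ofAdd (i : ℤ)
    rw [← hi]
    rfl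
  · rintro ⟨i, α, rfl, hx⟩
    exact ⟨i, rfl, hx⟩

lemma isFreq_iff {q : ℕ} {hq : q ≠ 0} {C : Cls 𝒱} {l : Freq W.K} :
    IsFreq W hq C l ↔ IsFreq' W hq C l := by
  constructor
  · rintro ⟨X, f, l', x, hX, hx, hx0, h⟩
    obtain ⟨i, α, rfl, hx'⟩ := isVec_iff.1 hx
    exact ⟨X, f, i, α, hX, ⟨x, hx', hx0⟩, h⟩
  · rintro ⟨X, f, i, α, hX, ⟨x, hx, hx0⟩, h⟩
    exact ⟨X, f, fr i α, x, hX, isVec_iff.2 ⟨i, α, rfl, hx⟩, hx0, h⟩

lemma realised_iff {q : ℕ} {hq : q ≠ 0} {C D : Cls 𝒱} {p : Pair W.K} :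
    Realised W hq C D p ↔ Realised' W hq C D p := by
  constructor
  · rintro ⟨X, f, Y, g, c, l, m, u, w, z, hX, hY, hz, hu, hw, h1, h2, h3⟩
    obtain ⟨i, α, rfl, hu'⟩ := isVec_iff.1 hu
    obtain ⟨j, β, rfl, hw'⟩ := isVec_iff.1 hw
    exact ⟨X, f, Y, g, i, j, c, α, β, u, w, z, hX, hY, hz, hu', hw', h1, h2, h3⟩
  · rintro ⟨X, f, Y, g, i, j, c, α, β, u, w, z, hX, hY, hz, hu, hw, h1, h2, h3⟩
    exact ⟨X, f, Y, g, c, fr i α, fr j β, u, w, z, hX, hY, hz, isVec_iff.2 ⟨i, α, rfl, hu⟩,
      isVec_iff.2 ⟨j, β, rfl, hw⟩, h1, h2, h3⟩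

lemma onProducts_iff {q : ℕ} {hq : q ≠ 0} {C D : Cls 𝒱} {s : ℕ} {p : Pair W.K} :
    OnProducts W hq C D s p ↔ OnProducts' W hq C D s p := by
  rw [OnProducts, OnProducts', isFreq_iff, isFreq_iff]

lemma pieces_eq (S : Set (Pair W.K)) : pieces W f g S = pieces' W f g S := by
  rw [pieces, pieces']
  congr 1
  ext c
  constructor
  · rintro ⟨l, m, x, y, hx, hy, hS, rfl⟩
    obtain ⟨i, α, rfl, hx'⟩ := isVec_iff.1 hx
    obtain ⟨j, β, rfl, hy'⟩ := isVec_iff.1 hy
    exact ⟨i, j, α, β, x, y, hx', hy', hS, rfl⟩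
  · rintro ⟨i, j, α, β, x, y, hx, hy, hS, rfl⟩
    exact ⟨fr i α, fr j β, x, y, isVec_iff.2 ⟨i, α, rfl, hx⟩, isVec_iff.2 ⟨j, β, rfl, hy⟩, hS, rfl⟩

lemma act_apply (x : W.H X) : act W f x = W.map f x := rfl

lemma act_mul (x y : W.H X) : act W f (x * y) = act W f x * act W f y := by
  simp only [act_apply, map_mul]

lemma act_pow_mul (s : ℕ) (x y : W.H X) :
    (act W f ^ s) (x * y) = (act W f ^ s) x * (act W f ^ s) y := by
  induction s with
  | zero => rfl
  | succ s ih => rw [pow_succ', Module.End.mul_apply, ih, act_mul]; rfl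

lemma act_one : act W f (1 : W.H X) = 1 := by rw [act_apply, map_one]

lemma act_mem {i : ℕ} {x : W.H X} (hx : x ∈ W.gr X i) : act W f x ∈ W.gr X i := W.map_mem f hx

lemma act_pow_mem (s : ℕ) {i : ℕ} {x : W.H X} (hx : x ∈ W.gr X i) :
    (act W f ^ s) x ∈ W.gr X i := by
  induction s with
  | zero => exact hx
  | succ s ih => rw [pow_succ', Module.End.mul_apply]; exact act_mem ih

lemma act_fst (x : W.H X) :
    act W (prodMap f g) (W.map (fst X Y) x) = W.map (fst X Y) (act W f x) := by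
  rw [act_apply, act_apply, ← W.map_comp, ← W.map_comp, prodMap, lift_fst]

lemma act_snd (y : W.H Y) :
    act W (prodMap f g) (W.map (snd X Y) y) = W.map (snd X Y) (act W g y) := by
  rw [act_apply, act_apply, ← W.map_comp, ← W.map_comp, prodMap, lift_snd]

lemma act_ext (x : W.H X) (y : W.H Y) :
    act W (prodMap f g) (ext W x y) = ext W (act W f x) (act W g y) := by
  rw [ext, act_mul, act_fst, act_snd]; rfl

lemma act_pow_ext (s : ℕ) (x : W.H X) (y : W.H Y) :
    (act W (prodMap f g) ^ s) (ext W x y) = ext W ((act W f ^ s) x) ((act W g ^ s) y) := by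
  induction s with
  | zero => rfl
  | succ s ih =>
    rw [pow_succ', Module.End.mul_apply, ih, act_ext, pow_succ', pow_succ']; rfl

/-- The bilinear external product. -/
noncomputable def extBil (W : WeilCohomology.{u, v} ops) (X Y : 𝒱.Obj) :
    W.H X →ₗ[W.K] W.H Y →ₗ[W.K] W.H (X.prod Y) :=
  LinearMap.mk₂ W.K (fun x y => ext W x y)
    (fun a b c => by simp only [ext, map_add, add_mul])
    (fun a b c => by simp only [ext, map_smul, smul_mul_assoc])
    (fun a b c => by simp only [ext, map_add, mul_add])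
    (fun a b c => by simp only [ext, map_smul, mul_smul_comm])

lemma extBil_apply (x : W.H X) (y : W.H Y) : extBil W X Y x y = ext W x y := rfl

/-- The bilinear product. -/
noncomputable def mulBil (W : WeilCohomology.{u, v} ops) (X : 𝒱.Obj) :
    W.H X →ₗ[W.K] W.H X →ₗ[W.K] W.H X := LinearMap.mul W.K (W.H X)

lemma ext_gr {i j : ℕ} {x : W.H X} {y : W.H Y} (hx : x ∈ W.gr X i) (hy : y ∈ W.gr Y j) :
    ext W x y ∈ W.gr (X.prod Y) (i + j) :=
  W.mul_mem (W.map_mem _ hx) (W.map_mem _ hy)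

lemma gen_ext (s : ℕ) {α β : W.K} {x : W.H X} {y : W.H Y}
    (hx : x ∈ Module.End.maxGenEigenspace (act W f ^ s) α)
    (hy : y ∈ Module.End.maxGenEigenspace (act W g ^ s) β) :
    ext W x y ∈ Module.End.maxGenEigenspace (act W (prodMap f g) ^ s) (α * β) :=
  gen_bilin (β := extBil W X Y) (f := act W f ^ s) (g := act W g ^ s)
    (h := act W (prodMap f g) ^ s) (fun a b => (act_pow_ext s a b).symm) hx hy

lemma gen_mul (s : ℕ) {α β : W.K} {x y : W.H X}
    (hx : x ∈ Module.End.maxGenEigenspace (act W f ^ s) α)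
    (hy : y ∈ Module.End.maxGenEigenspace (act W f ^ s) β) :
    x * y ∈ Module.End.maxGenEigenspace (act W f ^ s) (α * β) :=
  gen_bilin (β := mulBil W X) (f := act W f ^ s) (g := act W f ^ s)
    (h := act W f ^ s) (fun a b => (act_pow_mul s a b).symm) hx hy

lemma gen_pow {α : W.K} {x : W.H X} (hx : x ∈ Module.End.maxGenEigenspace (act W f) α) (s : ℕ) :
    x ∈ Module.End.maxGenEigenspace (act W f ^ s) (α ^ s) :=
  Pool.Agent.W458.RK.gen_pow_of_gen hx s

lemma part_ext {i j : ℕ} {α β : W.K} {x : W.H X} {y : W.H Y} (hx : x ∈ part W f i α)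
    (hy : y ∈ part W g j β) : ext W x y ∈ part W (prodMap f g) (i + j) (α * β) := by
  refine ⟨?_, ext_gr hx.2 hy.2⟩
  have h := gen_ext (f := f) (g := g) 1 (α := α) (β := β) (x := x) (y := y)
    (by rw [pow_one]; exact hx.1) (by rw [pow_one]; exact hy.1)
  rwa [pow_one] at h

lemma tr_ext_mul_ext {j i' : ℕ} {x x' : W.H X} {y y' : W.H Y} (hy : y ∈ W.gr Y j)
    (hx' : x' ∈ W.gr X i') :
    W.tr (X.prod Y) (ext W x y * ext W x' y') =
      (-1 : W.K) ^ (j * i') * (W.tr X (x * x') * W.tr Y (y * y')) := by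
  have h : ext W x y * ext W x' y' = (-1 : W.K) ^ (j * i') •
      (W.map (fst X Y) (x * x') * W.map (snd X Y) (y * y')) := by
    rw [ext, ext, mul_assoc, ← mul_assoc (W.map (snd X Y) y),
      W.comm (W.map_mem (snd X Y) hy) (W.map_mem (fst X Y) hx'), smul_mul_assoc, mul_smul_comm,
      map_mul, map_mul, mul_assoc, mul_assoc]
  rw [h, map_smul, smul_eq_mul, W.tr_prod]

variable {M : Models W q}

/-- The Frobenius endomorphism multiplies the trace by `q ^ dim`. -/
lemma tr_act (hf : M.mem X f) (c : W.H X) : W.tr X (act W f c) = (q : W.K) ^ X.dim * W.tr X c := by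
  refine gr_induction (W.isInternal X)
    (p := fun c => W.tr X (act W f c) = (q : W.K) ^ X.dim * W.tr X c) ?_ ?_ c
  · intro i a ha
    by_cases h : i = 2 * X.dim
    · subst h
      have h1 : act W f a = ((q : W.K) ^ X.dim) • a := by
        have := M.deg hf ha
        rwa [Scales, pow_one] at this
      rw [h1, map_smul, smul_eq_mul]
    · rw [W.tr_eq_zero (act_mem ha) h, W.tr_eq_zero ha h, mul_zero]
  · intro a b ha hb
    rw [map_add, map_add, ha, hb, map_add, mul_add]

lemma tr_act_pow (hf : M.mem X f) (s : ℕ) (c : W.H X) :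
    W.tr X ((act W f ^ s) c) = (q : W.K) ^ (s * X.dim) * W.tr X c := by
  induction s with
  | zero => simp
  | succ s ih =>
    rw [pow_succ', Module.End.mul_apply, tr_act hf, ih, ← mul_assoc, ← pow_add]
    congr 2; ring

/-- A generalised eigenvector with non-zero trace has the eigenvalue `q ^ (s dim)`. -/
lemma eigenvalue_of_tr (hf : M.mem X f) {s : ℕ} {α : W.K} {c : W.H X}
    (hc : c ∈ Module.End.maxGenEigenspace (act W f ^ s) α) (h : W.tr X c ≠ 0) :
    α = (q : W.K) ^ (s * X.dim) := by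
  have h1 := gen_map (θ := W.tr X) (T := act W f ^ s)
    (T' := ((q : W.K) ^ (s * X.dim)) • (1 : Module.End W.K W.K)) (c := 1) (ν := α)
    (fun x => by
      rw [one_smul, tr_act_pow hf]
      simp) hc
  rw [one_mul] at h1
  have h2 : W.tr X c ∈ Module.End.maxGenEigenspace
      (((q : W.K) ^ (s * X.dim)) • (1 : Module.End W.K W.K)) ((q : W.K) ^ (s * X.dim)) := by
    apply eig_mem_gen
    simp
  exact eq_of_mem_gen h1 h2 h

/-- The pairing of generalised eigenvectors. -/
lemma pairing (hf : M.mem X f) {i j : ℕ} {α β : W.K} {x u : W.H X} (hx : x ∈ part W f i α)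
    (hu : u ∈ part W f j β) (h : W.tr X (x * u) ≠ 0) :
    i + j = 2 * X.dim ∧ α * β = (q : W.K) ^ X.dim := by
  constructor
  · by_contra h1
    exact h (W.tr_eq_zero (W.mul_mem hx.2 hu.2) h1)
  · have h1 := gen_mul (f := f) 1 (α := α) (β := β) (x := x) (y := u)
      (by rw [pow_one]; exact hx.1) (by rw [pow_one]; exact hu.1)
    have h2 := eigenvalue_of_tr hf h1 h
    rwa [one_mul] at h2

lemma q_ne (hq : q ≠ 0) : (q : W.K) ≠ 0 := Nat.cast_ne_zero.2 hq

/-- The Frobenius endomorphism is injective on the cohomology. -/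
lemma act_injective (hq : q ≠ 0) (hf : M.mem X f) {x : W.H X} (h : act W f x = 0) : x = 0 := by
  apply W.nondeg
  intro b
  have h1 := tr_act hf (x * b)
  rw [act_mul, h, zero_mul, map_zero] at h1
  rcases mul_eq_zero.1 h1.symm with h2 | h2
  · exact absurd h2 (pow_ne_zero _ (q_ne hq))
  · exact h2

lemma eigenvalue_ne_zero (hq : q ≠ 0) (hf : M.mem X f) {i : ℕ} {α : W.K}
    (h : part W f i α ≠ ⊥) : α ≠ 0 := by
  rintro rfl
  obtain ⟨x, hx, hx0⟩ := Submodule.exists_mem_ne_zero_of_ne_bot h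
  have h1 : x ∈ (act W f).maxGenEigenspace (0 : W.K) := hx.1
  rw [Module.End.mem_maxGenEigenspace] at h1
  obtain ⟨n, hn⟩ := h1
  rw [zero_smul, sub_zero] at hn
  have : ∀ n : ℕ, (act W f ^ n) x ≠ 0 := by
    intro n
    induction n with
    | zero => exact hx0
    | succ n ih =>
      rw [pow_succ', Module.End.mul_apply]
      exact fun h => ih (act_injective hq hf h)
  exact this n hn

section Span

variable [IsAlgClosed W.K]

instance finiteH (X : 𝒱.Obj) : Module.Finite W.K (W.H X) := (W.isPoincareAlgebra X).finite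

/-- The cohomology is spanned by the generalised eigenvectors in single degrees. -/
lemma span_part (f : X ⟶ X) (x : W.H X) :
    x ∈ Submodule.span W.K {x | ∃ (i : ℕ) (α : W.K), x ∈ part W f i α} := by
  refine gr_induction (W.isInternal X) (p := fun x => x ∈ Submodule.span W.K
    {x | ∃ (i : ℕ) (α : W.K), x ∈ part W f i α}) ?_ ?_ x
  · intro i a ha
    have h1 := span_gen_top (act W f) a
    -- project to the degree `i`
    have h2 : ∀ y ∈ Submodule.span W.K {v | ∃ ν : W.K, v ∈ (act W f).maxGenEigenspace ν},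
        H914.proj (W.isInternal X) i y ∈ Submodule.span W.K
          {x | ∃ (i : ℕ) (α : W.K), x ∈ part W f i α} := by
      intro y hy
      induction hy using Submodule.span_induction with
      | mem y hy =>
        obtain ⟨ν, hν⟩ := hy
        refine Submodule.subset_span ⟨i, ν, ?_, proj_mem _ _ _⟩
        have hhom : IsHom (W.gr X) 0 (act W f) := by
          intro j a ha
          rw [add_zero]
          by_cases hj : j < 0
          · rw [grZ_of_neg hj] at ha
            rw [(Submodule.mem_bot _).1 ha, map_zero]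
            exact Submodule.zero_mem _
          · obtain ⟨m, rfl⟩ := Int.eq_ofNat_of_zero_le (not_lt.1 hj)
            rw [grZ_natCast] at ha ⊢
            exact act_mem ha
        have hcomm := (hhom.proj_comm (W.isInternal X) i).symm
        have := gen_map (θ := H914.proj (W.isInternal X) i) (T := act W f) (T' := act W f)
          (c := 1) (ν := ν) (fun x => by
            rw [one_smul]
            exact (congrArg (fun T => T x) hcomm)) hν
        rwa [one_mul] at this
      | zero => rw [map_zero]; exact Submodule.zero_mem _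
      | add a b _ _ ha hb => rw [map_add]; exact Submodule.add_mem _ ha hb
      | smul c a _ ha => rw [map_smul]; exact Submodule.smul_mem _ _ ha
    have h3 := h2 a h1
    rwa [proj_same _ ha] at h3
  · intro a b ha hb
    exact Submodule.add_mem _ ha hb

/-- Every non-zero class is paired non-trivially with a generalised eigenvector. -/
lemma exists_dual_part (f : X ⟶ X) {x : W.H X} (hx : x ≠ 0) :
    ∃ (i : ℕ) (α : W.K) (u : W.H X), u ∈ part W f i α ∧ W.tr X (x * u) ≠ 0 := by
  by_contra h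
  push Not at h
  apply hx
  apply W.nondeg
  intro b
  have hb := span_part f b
  induction hb using Submodule.span_induction with
  | mem y hy =>
    obtain ⟨i, α, hy⟩ := hy
    exact h i α y hy
  | zero => rw [mul_zero, map_zero]
  | add a b _ _ ha hb => rw [mul_add, map_add, ha, hb, add_zero]
  | smul c a _ ha => rw [mul_smul_comm, map_smul, ha, smul_zero]

/-- Every class on `X × Y` is a linear combination of external products of generalised
eigenvectors. -/
lemma span_ext (f : X ⟶ X) (g : Y ⟶ Y) (c : W.H (X.prod Y)) :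
    c ∈ Submodule.span W.K {c | ∃ (i j : ℕ) (α β : W.K) (x : W.H X) (y : W.H Y),
      x ∈ part W f i α ∧ y ∈ part W g j β ∧ c = ext W x y} := by
  refine W.kunneth_induction (p := fun c => c ∈ Submodule.span W.K
    {c | ∃ (i j : ℕ) (α β : W.K) (x : W.H X) (y : W.H Y),
      x ∈ part W f i α ∧ y ∈ part W g j β ∧ c = ext W x y}) ?_ ?_ c
  · intro a b ha hb
    exact Submodule.add_mem _ ha hb
  · intro i' j' x hx' y hy'
    clear hx' hy'
    change ext W x y ∈ _
    have hx := span_part f x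
    have hy := span_part g y
    rw [← extBil_apply]
    induction hx using Submodule.span_induction with
    | mem x hx =>
      obtain ⟨i, α, hx⟩ := hx
      induction hy using Submodule.span_induction with
      | mem y hy =>
        obtain ⟨j, β, hy⟩ := hy
        exact Submodule.subset_span ⟨i, j, α, β, x, y, hx, hy, rfl⟩
      | zero => rw [map_zero]; exact Submodule.zero_mem _
      | add a b _ _ ha hb => rw [map_add]; exact Submodule.add_mem _ ha hb
      | smul c a _ ha => rw [map_smul]; exact Submodule.smul_mem _ _ ha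
    | zero => rw [map_zero, LinearMap.zero_apply]; exact Submodule.zero_mem _
    | add a b _ _ ha hb => rw [map_add, LinearMap.add_apply]; exact Submodule.add_mem _ ha hb
    | smul c a _ ha => rw [map_smul, LinearMap.smul_apply]; exact Submodule.smul_mem _ _ ha

/-- Every non-zero class on `X × Y` is paired non-trivially with a pure tensor. -/
lemma exists_dual_ext (f : X ⟶ X) (g : Y ⟶ Y) {c : W.H (X.prod Y)} (hc : c ≠ 0) :
    ∃ (i j : ℕ) (α β : W.K) (u : W.H X) (w : W.H Y), u ∈ part W f i α ∧ w ∈ part W g j β ∧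
      W.tr _ (c * ext W u w) ≠ 0 := by
  by_contra h
  push Not at h
  apply hc
  apply W.nondeg
  intro b
  have hb := span_ext f g b
  induction hb using Submodule.span_induction with
  | mem y hy =>
    obtain ⟨i, j, α, β, x, y, hx, hy, rfl⟩ := hy
    exact h i j α β x y hx hy
  | zero => rw [mul_zero, map_zero]
  | add a b _ _ ha hb => rw [mul_add, map_add, ha, hb, add_zero]
  | smul c a _ ha => rw [mul_smul_comm, map_smul, ha, smul_zero]

end Span

end Pool.Agent.H18.Glue
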