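import Pool.Graph.R_seed8.Y133.Half.TateSS

/-!
# Classes of varieties over a finite field and the group of their Frobenius eigenvalues: definitions
-/

open CategoryTheory AlgebraicGeometry

universe u v

namespace Pool.Agent.H18.Glue

open Pool.Agent.H914 Pool.Agent.H914.VarClass Pool.Agent.H914.VarClass.Obj
  Pool.Agent.H914.WeilCohomology Pool.Agent.H281R3.HT

section Lin

variable {K V : Type v} [Field K] [AddCommGroup V] [Module K V]

/-- `T ^ s` multiplies `c` by `q ^ n`. -/
def Scales (q : ℕ) (T : Module.End K V) (s n : ℕ) (c : V) : Prop :=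
  (T ^ s) c = ((q : K) ^ n) • c

/-- The eigenspace of `T ^ s` for the eigenvalue `q ^ n` in the subspace `A`. -/
def eigSp (q : ℕ) (T : Module.End K V) (s n : ℕ) (A : Submodule K V) : Submodule K V :=
  Module.End.eigenspace (T ^ s) ((q : K) ^ n) ⊓ A

/-- The generalised eigenspace of `T ^ s` for the eigenvalue `q ^ n` in the subspace `A`. -/
def genSp (q : ℕ) (T : Module.End K V) (s n : ℕ) (A : Submodule K V) : Submodule K V :=
  Module.End.maxGenEigenspace (T ^ s) ((q : K) ^ n) ⊓ A

/-- The generalised eigenspace of `T` for the eigenvalue `α` in the subspace `A`. -/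
def genAt (T : Module.End K V) (α : K) (A : Submodule K V) : Submodule K V :=
  Module.End.maxGenEigenspace T α ⊓ A

/-- The polynomial `P` with rational coefficients vanishes at `T` on the subspace `A`. -/
def Kills [CharZero K] (P : Polynomial ℚ) (T : Module.End K V) (A : Submodule K V) : Prop :=
  ∀ c ∈ A, Polynomial.aeval T (P.map (algebraMap ℚ K)) c = 0

/-- The trace of the product `a b` is not zero. -/
def NonzeroPair {H : Type v} [Ring H] [Algebra K H] (tr : H →ₗ[K] K) (a b : H) : Prop :=
  tr (a * b) ≠ 0

end Lin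

section Grp

variable {G : Type v} [CommGroup G]

/-- `a` and `b` are equal up to a power of `t`. -/
def EqMod (t a b : G) : Prop := a / b ∈ Subgroup.zpowers t

/-- `a` and `b` are inverse up to a power of `t`. -/
def InvMod (t a b : G) : Prop := a * b ∈ Subgroup.zpowers t

end Grp

/-- The group of the pairs `(i, α)`: a degree and a Frobenius eigenvalue. -/
def Freq (K : Type v) [Field K] : Type v := Multiplicative ℤ × Kˣ

noncomputable instance instFreq (K : Type v) [Field K] : CommGroup (Freq K) :=
  (Prod.instCommGroup : CommGroup (Multiplicative ℤ × Kˣ))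

/-- The pair `(i, α)`. -/
def fr {K : Type v} [Field K] (i : ℤ) (α : Kˣ) : Freq K := (Multiplicative.ofAdd i, α)

/-- The degree `i` of the pair `(i, α)`. -/
def degOf {K : Type v} [Field K] (l : Freq K) : ℤ := Multiplicative.toAdd l.1

/-- The eigenvalue `α` of the pair `(i, α)`. -/
def valOf {K : Type v} [Field K] (l : Freq K) : Kˣ := l.2

/-- The number `q` as a unit. -/
noncomputable def qUnit (K : Type v) [Field K] [CharZero K] {q : ℕ} (hq : q ≠ 0) : Kˣ :=
  Units.mk0 (q : K) (Nat.cast_ne_zero.2 hq)

/-- The pair `(2, q)` of the Lefschetz motive. -/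
noncomputable def tw (K : Type v) [Field K] [CharZero K] {q : ℕ} (hq : q ≠ 0) : Freq K :=
  fr 2 (qUnit K hq)

/-- The group of the pairs of frequencies. -/
def Pair (K : Type v) [Field K] : Type v := Freq K × Freq K

noncomputable instance instPair (K : Type v) [Field K] : CommGroup (Pair K) :=
  (Prod.instCommGroup : CommGroup (Freq K × Freq K))

/-- The pairs of frequencies `((i, α), (j, β))` which belong to Tate classes on products over the
extension of degree `s`: `i + j` is even and `(α β) ^ s = q ^ (s (i + j) / 2)`. -/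
def IsTatePair (K : Type v) [Field K] [CharZero K] {q : ℕ} (hq : q ≠ 0) (s : ℕ) (p : Pair K) :
    Prop :=
  ∃ c : ℤ, degOf (p.1 * p.2) = 2 * c ∧ valOf (p.1 * p.2) ^ s = qUnit K hq ^ ((s : ℤ) * c)

/-- The action of an automorphism of the coefficient field on the pairs `(i, α)`. -/
def conj {K : Type v} [Field K] (σ : K ≃+* K) (l : Freq K) : Freq K :=
  fr (degOf l) (Units.map (σ : K →* K) (valOf l))

/-- The action of an automorphism of the coefficient field on the pairs of frequencies. -/
def conj₂ {K : Type v} [Field K] (σ : K ≃+* K) (p : Pair K) : Pair K := (conj σ p.1, conj σ p.2)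

/-- The conjugates of the elements of `B` and the pairs of powers of `(2, q)`. -/
def gens {K : Type v} [Field K] [CharZero K] {q : ℕ} (hq : q ≠ 0) (B : Set (Pair K)) :
    Set (Pair K) :=
  {p | (∃ (σ : K ≃+* K) (b : Pair K), b ∈ B ∧ p = conj₂ σ b) ∨
    (EqMod (tw K hq) p.1 1 ∧ EqMod (tw K hq) p.2 1)}

/-- If `S` contains `p` and `p⁻¹` then it contains all the conjugates of `p`. -/
def GaloisClosed {K : Type v} [Field K] (S : Submonoid (Pair K)) : Prop :=
  ∀ p ∈ S, p⁻¹ ∈ S → ∀ σ : K ≃+* K, conj₂ σ p ∈ S

/-- The elements of `B` and their inverses belong to `S`. -/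
def HasBoth {K : Type v} [Field K] (S : Submonoid (Pair K)) (B : Set (Pair K)) : Prop :=
  ∀ p ∈ B, p ∈ S ∧ p⁻¹ ∈ S

/-- All the elements with the property `P` belong to `S`. -/
def HasAll {K : Type v} [Field K] (S : Submonoid (Pair K)) (P : Pair K → Prop) : Prop :=
  ∀ p, P p → p ∈ S

variable {k : Type u} [Field k] {𝒱 : VarClass k} {ops : CycleOps 𝒱}

/-- The classes of varieties over a finite field: a property of the varieties `X` over an algebraic
closure together with an endomorphism `f` of `X`. -/
abbrev Cls (𝒱 : VarClass k) := ∀ X : 𝒱.Obj, (X ⟶ X) → Prop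

/-- The product `f × g` of two endomorphisms. -/
noncomputable def prodMap {X Y : 𝒱.Obj} (f : X ⟶ X) (g : Y ⟶ Y) : X.prod Y ⟶ X.prod Y :=
  Obj.lift (fst X Y ≫ f) (snd X Y ≫ g)

/-- The action of the endomorphism `f` on the cohomology of `X`. -/
noncomputable def act (W : WeilCohomology.{u, v} ops) {X : 𝒱.Obj} (f : X ⟶ X) :
    Module.End W.K (W.H X) :=
  (W.map f).toLinearMap

/-- The varieties over the field `F` with `q` elements, given by varieties `X` over an algebraic
closure of `F` together with their Frobenius endomorphisms `f` relative to `F`. The class is closed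
under products. Every cycle of codimension `j` on `X` is defined over a finite extension of `F`,
of degree `s` say, and then `f ^ s` multiplies its class by `q ^ (s j)`; and `f` has degree
`q ^ dim X`. -/
structure Models (W : WeilCohomology.{u, v} ops) (q : ℕ) where
  /-- `X` is the variety over the algebraic closure of a variety over `F` with the Frobenius
  endomorphism `f` -/
  mem : Cls 𝒱
  prod : ∀ {X Y : 𝒱.Obj} {f : X ⟶ X} {g : Y ⟶ Y}, mem X f → mem Y g →
    mem (X.prod Y) (prodMap f g)
  cyc : ∀ {X : 𝒱.Obj} {f : X ⟶ X}, mem X f → ∀ {j : ℕ} {z : X.Cycles}, X.IsCyc j z →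
    ∃ s, 0 < s ∧ Scales q (act W f) s (s * j) (W.cl X z)
  deg : ∀ {X : 𝒱.Obj} {f : X ⟶ X}, mem X f → ∀ {c : W.H X}, c ∈ W.gr X (2 * X.dim) →
    Scales q (act W f) 1 X.dim c

variable {W : WeilCohomology.{u, v} ops} {q : ℕ}

/-- A class `C` of varieties over the field with `q` elements which is closed under products and
has a member (with non-zero unit class, as for all varieties). -/
structure IsClass (M : Models W q) (C : Cls 𝒱) : Prop where
  le : ∀ {X : 𝒱.Obj} {f : X ⟶ X}, C X f → M.mem X f
  prod : ∀ {X Y : 𝒱.Obj} {f : X ⟶ X} {g : Y ⟶ Y}, C X f → C Y g → C (X.prod Y) (prodMap f g)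
  nonempty : ∃ (X : 𝒱.Obj) (f : X ⟶ X), C X f ∧ (1 : W.H X) ≠ 0

/-- The space `A ^ j` over the extension of degree `s` of the field with `q` elements: the linear
combinations of the classes of the cycles of codimension `j` whose classes are multiplied by
`q ^ (s j)` by the Frobenius endomorphism `f ^ s` over this extension. (These are the classes of the
cycles over the extension: if the class of a cycle over an algebraic closure has this
property, it is the class of the mean of the conjugates of the cycle over the extension.) -/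
noncomputable def algOver (W : WeilCohomology.{u, v} ops) (q : ℕ) {X : 𝒱.Obj} (f : X ⟶ X) (s j : ℕ) :
    Submodule W.K (W.H X) :=
  Submodule.span W.K {c | ∃ z, X.IsCyc j z ∧ W.cl X z = c ∧ Scales q (act W f) s (s * j) c}

/-- The space `E ^ j` over the extension of degree `s`: the classes `x` in `H ^ (2 j)` on which the
Frobenius endomorphism `f ^ s` is the multiplication by `q ^ (s j)`. -/
noncomputable def tateOver (W : WeilCohomology.{u, v} ops) (q : ℕ) {X : 𝒱.Obj} (f : X ⟶ X) (s j : ℕ) :
    Submodule W.K (W.H X) :=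
  eigSp q (act W f) s (s * j) (W.gr X (2 * j))

/-- The generalised eigenspace of the Frobenius endomorphism `f ^ s` for the eigenvalue `q ^ (s j)`
in `H ^ (2 j)`. -/
noncomputable def genOver (W : WeilCohomology.{u, v} ops) (q : ℕ) {X : 𝒱.Obj} (f : X ⟶ X) (s j : ℕ) :
    Submodule W.K (W.H X) :=
  genSp q (act W f) s (s * j) (W.gr X (2 * j))

/-- The Tate conjecture `E ^ j = A ^ j` over the extension of degree `s`, for all `j`, together with
the semisimplicity of the eigenvalue `q ^ (s j)` of the Frobenius endomorphism in degree `2 j`. -/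
def TateConj (W : WeilCohomology.{u, v} ops) (q : ℕ) {X : 𝒱.Obj} (f : X ⟶ X) (s : ℕ) : Prop :=
  ∀ j, genOver W q f s j = tateOver W q f s j ∧ tateOver W q f s j = algOver W q f s j

/-- The Tate conjecture with semisimplicity over the base field for the varieties of the class
`C`. -/
def TateClass (W : WeilCohomology.{u, v} ops) (q : ℕ) (C : Cls 𝒱) : Prop :=
  ∀ (X : 𝒱.Obj) (f : X ⟶ X), C X f → TateConj W q f 1

/-- The Tate conjecture with semisimplicity over the extension of degree `s` for all products
`X × Y` of a variety `X` of the class `C` and a variety `Y` of the class `D`. -/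
def TateProducts (W : WeilCohomology.{u, v} ops) (q : ℕ) (C D : Cls 𝒱) (s : ℕ) : Prop :=
  ∀ (X : 𝒱.Obj) (f : X ⟶ X) (Y : 𝒱.Obj) (g : Y ⟶ Y), C X f → D Y g →
    TateConj W q (prodMap f g) s

/-- The generalised eigenspace of `f` for the eigenvalue `α` in degree `i`. -/
noncomputable def part (W : WeilCohomology.{u, v} ops) {X : 𝒱.Obj} (f : X ⟶ X) (i : ℕ) (α : W.K) :
    Submodule W.K (W.H X) :=
  genAt (act W f) α (W.gr X i)

/-- `x` is a generalised eigenvector of `f` of the frequency `l = (i, α)`: it has the degree `i`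
and the eigenvalue `α`. -/
def IsVec (W : WeilCohomology.{u, v} ops) {X : 𝒱.Obj} (f : X ⟶ X) (l : Freq W.K) (x : W.H X) :
    Prop :=
  ∃ i : ℕ, degOf l = i ∧ x ∈ part W f i (valOf l)

/-- `∫ z · (u × w)` is not zero. -/
def Detects (W : WeilCohomology.{u, v} ops) {X Y : 𝒱.Obj} (z : (X.prod Y).Cycles) (u : W.H X)
    (w : W.H Y) : Prop :=
  NonzeroPair (W.tr (X.prod Y)) (W.cl _ z) (ext W u w)

/-- `l` is a frequency of the class `C`: it is the frequency of a non-zero generalised eigenvector
of the Frobenius endomorphism of a member of `C`, up to a power of `(2, q)`. -/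
def IsFreq (W : WeilCohomology.{u, v} ops) {q : ℕ} (hq : q ≠ 0) (C : Cls 𝒱) (l : Freq W.K) : Prop :=
  ∃ (X : 𝒱.Obj) (f : X ⟶ X) (l' : Freq W.K) (x : W.H X), C X f ∧ IsVec W f l' x ∧ x ≠ 0 ∧
    EqMod (tw W.K hq) l l'

/-- The pair `(l, m)` of frequencies is *realised* by one algebraic cycle: there are `X` in `C`, `Y`
in `D`, a cycle `z` on `X × Y` (over an algebraic closure) and generalised eigenvectors `u` on `X`,
`w` on `Y`, with frequencies inverse to `l` and `m` up to powers of `(2, q)`, such that
`∫ z · (u × w)` is not zero. In other words, the component of the class of `z` with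
the frequencies `(l, m)` is not zero. -/
def Realised (W : WeilCohomology.{u, v} ops) {q : ℕ} (hq : q ≠ 0) (C D : Cls 𝒱) (p : Pair W.K) :
    Prop :=
  ∃ (X : 𝒱.Obj) (f : X ⟶ X) (Y : 𝒱.Obj) (g : Y ⟶ Y) (c : ℕ) (l m : Freq W.K) (u : W.H X)
    (w : W.H Y) (z : (X.prod Y).Cycles), C X f ∧ D Y g ∧ (X.prod Y).IsCyc c z ∧
    IsVec W f l u ∧ IsVec W g m w ∧
    InvMod (tw W.K hq) p.1 l ∧ InvMod (tw W.K hq) p.2 m ∧ Detects W z u w

/-- The pair `p` of frequencies belongs to Tate classes over the extension of degree `s` on products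
of the varieties in `C` and in `D`. -/
def OnProducts (W : WeilCohomology.{u, v} ops) {q : ℕ} (hq : q ≠ 0) (C D : Cls 𝒱) (s : ℕ)
    (p : Pair W.K) : Prop :=
  IsFreq W hq C p.1 ∧ IsFreq W hq D p.2 ∧ IsTatePair W.K hq s p

/-- The sum of the `H(X)_l ⊗ H(Y)_m` over the pairs of frequencies `(l, m)` in `S`. -/
noncomputable def pieces (W : WeilCohomology.{u, v} ops) {X Y : 𝒱.Obj} (f : X ⟶ X) (g : Y ⟶ Y)
    (S : Set (Pair W.K)) : Submodule W.K (W.H (X.prod Y)) :=
  Submodule.span W.K {c | ∃ (l m : Freq W.K) (x : W.H X) (y : W.H Y),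
    IsVec W f l x ∧ IsVec W g m y ∧ (l, m) ∈ S ∧ c = ext W x y}

/-- For all `X` in `C` and `Y` in `D`, the linear combinations of the classes of the cycles on
`X × Y` (over an algebraic closure) form the sum of the `H(X)_l ⊗ H(Y)_m` with `(l, m)` in `S`. -/
def CyclesAre (W : WeilCohomology.{u, v} ops) (C D : Cls 𝒱) (S : Set (Pair W.K)) : Prop :=
  ∀ (X : 𝒱.Obj) (f : X ⟶ X) (Y : 𝒱.Obj) (g : Y ⟶ Y), C X f → D Y g →
    algSpan W (X.prod Y) = pieces W f g S

/-- The set `B` consists of pairs of frequencies which belong to Tate classes over the extension of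
degree `s` on products of the varieties in `C` and in `D`, and all these pairs are products
of conjugates of elements of `B`, of their inverses, and of pairs of powers of `(2, q)`. -/
def Generates (W : WeilCohomology.{u, v} ops) {q : ℕ} (hq : q ≠ 0) (C D : Cls 𝒱) (s : ℕ)
    (B : Set (Pair W.K)) : Prop :=
  (∀ p ∈ B, OnProducts W hq C D s p) ∧
    ∀ p, OnProducts W hq C D s p → p ∈ Subgroup.closure (gens hq B)

/-- The Frobenius endomorphisms `f` of the class `C` satisfy polynomial equations with rational
coefficients on the cohomology groups, which are coprime for different degrees. (By Deligne's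
theorem the characteristic polynomials have this property.) -/
def HasWeilPolys (W : WeilCohomology.{u, v} ops) (C : Cls 𝒱) : Prop :=
  ∀ (X : 𝒱.Obj) (f : X ⟶ X), C X f →
    ∃ P : ℕ → Polynomial ℚ, (∀ i, P i ≠ 0) ∧ (∀ i j, i ≠ j → IsCoprime (P i) (P j)) ∧
      ∀ i, Kills (P i) (act W f) (W.gr X i)

end Pool.Agent.H18.Glue
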