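import Pool.Agent.H18.Glue.Basic

/-!
# Exchanging eigenvectors along algebraic classes
-/

set_option autoImplicit false

open CategoryTheory AlgebraicGeometry

universe u v

namespace Pool.Agent.H18.Glue

open Pool.Agent.H914 Pool.Agent.H914.VarClass Pool.Agent.H914.VarClass.Obj
  Pool.Agent.H914.WeilCohomology Pool.Agent.H281R3.HT Pool.Agent.Y133.Half Pool.Agent.W458.MF
  Pool.Agent.W536.RR

variable {k : Type u} [Field k] {𝒱 : VarClass k} {ops : CycleOps 𝒱}
  {W : WeilCohomology.{u, v} ops} {q : ℕ} {X Y X' Y' : 𝒱.Obj} {f : X ⟶ X} {g : Y ⟶ Y}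

lemma push_fst' (a : W.H X) {j : ℕ} {c : W.H X'} (hc : c ∈ W.gr X' j) :
    W.push (fst X X') (W.map (fst X X') a * W.map (snd X X') c) = W.tr X' c • a := by
  apply W.tr_ext
  intro d
  rw [W.tr_push]
  refine gr_induction (W.isInternal X) (p := fun d => W.tr (X.prod X')
    (W.map (fst X X') a * W.map (snd X X') c * W.map (fst X X') d) =
    W.tr X (W.tr X' c • a * d)) ?_ ?_ d
  · intro i d hd
    have h1 : W.map (snd X X') c * W.map (fst X X') d =
        (-1 : W.K) ^ (j * i) • (W.map (fst X X') d * W.map (snd X X') c) :=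
      W.comm (W.map_mem _ hc) (W.map_mem _ hd)
    rw [mul_assoc, h1, mul_smul_comm, ← mul_assoc, ← map_mul, map_smul, W.tr_prod,
      smul_mul_assoc, map_smul, smul_eq_mul, smul_eq_mul]
    by_cases hj : j = 2 * X'.dim
    · have h2 : (-1 : W.K) ^ (j * i) = 1 := by
        rw [hj, mul_assoc, pow_mul]; simp
      rw [h2, one_mul, mul_comm]
    · rw [W.tr_eq_zero hc hj]
      ring
  · intro d d' hd hd'
    rw [map_add, mul_add, map_add, hd, hd', mul_add, map_add]

/-- The projection `(X' × Y') × (X × Y) → X' × X`. -/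
noncomputable def pa (X' Y' X Y : 𝒱.Obj) : (X'.prod Y').prod (X.prod Y) ⟶ X'.prod X :=
  Obj.lift (fst _ _ ≫ fst _ _) (snd _ _ ≫ fst _ _)

/-- The projection `(X' × Y') × (X × Y) → Y' × Y`. -/
noncomputable def pb (X' Y' X Y : 𝒱.Obj) : (X'.prod Y').prod (X.prod Y) ⟶ Y'.prod Y :=
  Obj.lift (fst _ _ ≫ snd _ _) (snd _ _ ≫ snd _ _)

lemma map_pa (x' : W.H X') (u : W.H X) : W.map (pa X' Y' X Y) (ext W x' u) =
    W.map (fst _ _) (W.map (fst X' Y') x') * W.map (snd _ _) (W.map (fst X Y) u) := by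
  rw [ext, map_mul, ← W.map_comp, ← W.map_comp, pa, lift_fst, lift_snd, W.map_comp, W.map_comp]

lemma map_pb (y' : W.H Y') (w : W.H Y) : W.map (pb X' Y' X Y) (ext W y' w) =
    W.map (fst _ _) (W.map (snd X' Y') y') * W.map (snd _ _) (W.map (snd X Y) w) := by
  rw [ext, map_mul, ← W.map_comp, ← W.map_comp, pb, lift_fst, lift_snd, W.map_comp, W.map_comp]

/-- Rearranging a product of four classes. -/
lemma rearrange {i j' : ℕ} (x' : W.H X') {u : W.H X} (hu : u ∈ W.gr X i) {y' : W.H Y'}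
    (hy' : y' ∈ W.gr Y' j') (w : W.H Y) :
    W.map (pa X' Y' X Y) (ext W x' u) * W.map (pb X' Y' X Y) (ext W y' w) =
      (-1 : W.K) ^ (i * j') • ext W (ext W x' y') (ext W u w) := by
  have h := W.comm (W.map_mem (snd (X'.prod Y') (X.prod Y)) (W.map_mem (fst X Y) hu))
    (W.map_mem (fst (X'.prod Y') (X.prod Y)) (W.map_mem (snd X' Y') hy'))
  rw [map_pa, map_pb, mul_assoc, ← mul_assoc (W.map (snd _ _) (W.map (fst X Y) u)), h,
    smul_mul_assoc, mul_smul_comm]
  congr 1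
  simp only [ext, map_mul, mul_assoc]

/-- **Exchange of eigenvectors.** If `x' × u` and `y' × w` are algebraic and `z` is the class of a
cycle on `X × Y` with `∫ z · (u × w) ≠ 0`, then `x' × y'` is algebraic. -/
theorem exchange {i j j' c : ℕ} {x' : W.H X'} {y' : W.H Y'} {u : W.H X} {w : W.H Y}
    (hy' : y' ∈ W.gr Y' j') (hu : u ∈ W.gr X i) (hw : w ∈ W.gr Y j)
    (h1 : ext W x' u ∈ algSpan W (X'.prod X)) (h2 : ext W y' w ∈ algSpan W (Y'.prod Y))
    {z : (X.prod Y).Cycles} (hz : (X.prod Y).IsCyc c z)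
    (hne : W.tr _ (W.cl _ z * ext W u w) ≠ 0) : ext W x' y' ∈ algSpan W (X'.prod Y') := by
  have h3 : W.push (fst (X'.prod Y') (X.prod Y)) (W.map (pa X' Y' X Y) (ext W x' u) *
      W.map (pb X' Y' X Y) (ext W y' w) * W.map (snd _ _) (W.cl _ z)) ∈
      algSpan W (X'.prod Y') :=
    algSpan_push _ (algSpan_mul (algSpan_mul (algSpan_map _ h1) (algSpan_map _ h2))
      (algSpan_map _ (cl_mem_algSpan hz)))
  rw [rearrange x' hu hy' w, smul_mul_assoc, map_smul] at h3
  have h4 : ext W (ext W x' y') (ext W u w) * W.map (snd (X'.prod Y') (X.prod Y)) (W.cl _ z) =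
      W.map (fst _ _) (ext W x' y') * W.map (snd _ _) (W.cl _ z * ext W u w) := by
    rw [ext, mul_assoc, ← map_mul, ← W.even_comm (W.cl_mem hz)]
  rw [h4, push_fst' _ (W.mul_mem (W.cl_mem hz) (ext_gr hu hw)), smul_smul] at h3
  have h5 : (-1 : W.K) ^ (i * j') * W.tr (X.prod Y) (W.cl _ z * ext W u w) ≠ 0 :=
    mul_ne_zero (pow_ne_zero _ (neg_ne_zero.2 one_ne_zero)) hne
  have h6 := Submodule.smul_mem _ ((-1 : W.K) ^ (i * j') *
    W.tr (X.prod Y) (W.cl _ z * ext W u w))⁻¹ h3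
  rwa [smul_smul, inv_mul_cancel₀ h5, one_smul] at h6

/-- External products of algebraic external products. -/
theorem ext_ext_alg {i j' : ℕ} {x' : W.H X'} {y' : W.H Y'} {u : W.H X} {w : W.H Y}
    (hu : u ∈ W.gr X i) (hy' : y' ∈ W.gr Y' j')
    (h1 : ext W x' u ∈ algSpan W (X'.prod X)) (h2 : ext W y' w ∈ algSpan W (Y'.prod Y)) :
    ext W (ext W x' y') (ext W u w) ∈ algSpan W ((X'.prod Y').prod (X.prod Y)) := by
  have h3 : W.map (pa X' Y' X Y) (ext W x' u) * W.map (pb X' Y' X Y) (ext W y' w) ∈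
      algSpan W ((X'.prod Y').prod (X.prod Y)) :=
    algSpan_mul (algSpan_map _ h1) (algSpan_map _ h2)
  rw [rearrange x' hu hy' w] at h3
  have h5 : (-1 : W.K) ^ (i * j') ≠ 0 := pow_ne_zero _ (neg_ne_zero.2 one_ne_zero)
  have h6 := Submodule.smul_mem _ ((-1 : W.K) ^ (i * j'))⁻¹ h3
  rwa [smul_smul, inv_mul_cancel₀ h5, one_smul] at h6

/-- A class in the span of the classes of cycles which is paired non-trivially with `c` gives a
cycle with this property. -/
lemma exists_cycle {Z : 𝒱.Obj} {a c : W.H Z} (ha : a ∈ algSpan W Z) (h : W.tr Z (a * c) ≠ 0) :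
    ∃ (j : ℕ) (z : Z.Cycles), Z.IsCyc j z ∧ W.tr Z (W.cl Z z * c) ≠ 0 := by
  by_contra h1
  push Not at h1
  apply h
  refine algSpan_induction (p := fun a => W.tr Z (a * c) = 0) ?_ ?_ ?_ ?_ ha
  · rw [zero_mul, map_zero]
  · intro a b ha hb; rw [add_mul, map_add, ha, hb, add_zero]
  · intro t a ha; rw [smul_mul_assoc, map_smul, ha, smul_zero]
  · intro j z hz; exact h1 j z hz

end Pool.Agent.H18.Glue
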