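import Pool.Agent.H18.Glue.Tate

/-!
# Constant extensions and conjugate frequencies
-/

set_option autoImplicit false

open CategoryTheory AlgebraicGeometry

universe u v

namespace Pool.Agent.H18.Glue

open Pool.Agent.H914 Pool.Agent.H914.VarClass Pool.Agent.H914.VarClass.Obj
  Pool.Agent.H914.WeilCohomology Pool.Agent.H281R3.HT Pool.Agent.Y133.Half Pool.Agent.W458.MF
  Pool.Agent.W536.RR

section Poly

open Polynomial

variable {K V V' : Type*} [Field K] [AddCommGroup V] [Module K V] [AddCommGroup V'] [Module K V']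

lemma aeval_comm {θ : V →ₗ[K] V'} {T : Module.End K V} {T' : Module.End K V'}
    (h : ∀ x, θ (T x) = T' (θ x)) (a : K[X]) (x : V) : θ (aeval T a x) = aeval T' a (θ x) := by
  induction a using Polynomial.induction_on' generalizing x with
  | add p q hp hq =>
    rw [map_add, map_add, LinearMap.add_apply, LinearMap.add_apply, map_add, hp, hq]
  | monomial n c =>
    have h1 : ∀ (n : ℕ) (x : V), θ ((T ^ n) x) = (T' ^ n) (θ x) := by
      intro n
      induction n with
      | zero => intro x; rfl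
      | succ n ih => intro x; rw [pow_succ, Module.End.mul_apply, ih, h, pow_succ,
          Module.End.mul_apply]
    rw [aeval_monomial, aeval_monomial, Module.End.mul_apply, Module.End.mul_apply,
      Algebra.algebraMap_eq_smul_one, Algebra.algebraMap_eq_smul_one, LinearMap.smul_apply,
      LinearMap.smul_apply, Module.End.one_apply, Module.End.one_apply, map_smul, h1]

lemma eq_zero_of_coprime {T : Module.End K V} {a b : K[X]} (h : IsCoprime a b) {x : V}
    (ha : aeval T a x = 0) (hb : aeval T b x = 0) : x = 0 := by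
  obtain ⟨c, d, hcd⟩ := h
  have h1 : aeval T (c * a + d * b) x = 0 := by
    rw [map_add, map_mul, map_mul, LinearMap.add_apply, Module.End.mul_apply,
      Module.End.mul_apply, ha, hb, map_zero, map_zero, add_zero]
  rw [hcd, map_one, Module.End.one_apply] at h1
  exact h1

lemma aeval_X_sub_pow (T : Module.End K V) (α : K) (n : ℕ) (x : V) :
    aeval T ((X - C α) ^ n) x = ((T - α • (1 : Module.End K V)) ^ n) x := by
  rw [map_pow, map_sub, aeval_X, aeval_C, Algebra.algebraMap_eq_smul_one]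

lemma coprime_X_sub_pow {α : K} {b : K[X]} (h : b.eval α ≠ 0) (n : ℕ) :
    IsCoprime ((X - C α) ^ n) b := by
  apply IsCoprime.pow_left
  refine (irreducible_X_sub_C α).coprime_iff_not_dvd.2 ?_
  rw [dvd_iff_isRoot]
  exact h

variable [CharZero K]

lemma map_map_rat (σ : K ≃+* K) (P : ℚ[X]) :
    (P.map (algebraMap ℚ K)).map (σ : K →+* K) = P.map (algebraMap ℚ K) := by
  rw [Polynomial.map_map]
  congr 1
  exact Subsingleton.elim _ _

/-- If `T` satisfies a polynomial equation with rational coefficients, then there is a polynomial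
`e` such that, for all automorphisms `σ`, the value of the conjugate of `e` at `T` is the projection
onto the generalised eigenspace of `σ α`. -/
lemma exists_proj {P : ℚ[X]} (hP : P ≠ 0) {T : Module.End K V}
    (hT : aeval T (P.map (algebraMap ℚ K)) = 0) (α : K) :
    ∃ e : K[X], ∀ σ : K ≃+* K,
      (∀ x, aeval T (e.map (σ : K →+* K)) x ∈ T.maxGenEigenspace (σ α)) ∧
      ∀ x ∈ T.maxGenEigenspace (σ α), aeval T (e.map (σ : K →+* K)) x = x := by
  have hP' : P.map (algebraMap ℚ K) ≠ 0 :=
    (Polynomial.map_ne_zero_iff (algebraMap ℚ K).injective).2 hP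
  obtain ⟨Q, hQ, hQ'⟩ := exists_eq_pow_rootMultiplicity_mul_and_not_dvd
    (P.map (algebraMap ℚ K)) hP' α
  set n := rootMultiplicity α (P.map (algebraMap ℚ K))
  have hcop : IsCoprime ((X - C α) ^ n) Q := by
    apply coprime_X_sub_pow
    rwa [dvd_iff_isRoot] at hQ'
  obtain ⟨a, b, hab⟩ := hcop
  refine ⟨b * Q, fun σ => ?_⟩
  have h1 : P.map (algebraMap ℚ K) = (X - C (σ α)) ^ n * Q.map (σ : K →+* K) := by
    have := congrArg (Polynomial.map (σ : K →+* K)) hQ
    rw [map_map_rat, Polynomial.map_mul, Polynomial.map_pow, Polynomial.map_sub,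
      Polynomial.map_X, Polynomial.map_C] at this
    exact this
  have h2 : a.map (σ : K →+* K) * (X - C (σ α)) ^ n + b.map (σ : K →+* K) * Q.map (σ : K →+* K) =
      1 := by
    have := congrArg (Polynomial.map (σ : K →+* K)) hab
    rw [Polynomial.map_add, Polynomial.map_mul, Polynomial.map_mul, Polynomial.map_pow,
      Polynomial.map_sub, Polynomial.map_X, Polynomial.map_C, Polynomial.map_one] at this
    exact this
  have h3 : (Q.map (σ : K →+* K)).eval (σ α) ≠ 0 := by
    intro h
    rw [dvd_iff_isRoot] at hQ'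
    apply hQ'
    have h4 : (Q.map (σ : K →+* K)).eval (σ α) = σ (Q.eval α) := by
      have := Polynomial.eval_map_apply (p := Q) (f := (σ : K →+* K)) (x := α)
      exact this
    rw [h4] at h
    exact (map_eq_zero σ).1 h
  rw [Polynomial.map_mul]
  constructor
  · intro x
    rw [Module.End.mem_maxGenEigenspace]
    refine ⟨n, ?_⟩
    rw [← aeval_X_sub_pow, ← Module.End.mul_apply, ← map_mul]
    have : (X - C (σ α)) ^ n * (b.map (σ : K →+* K) * Q.map (σ : K →+* K)) =
        b.map (σ : K →+* K) * P.map (algebraMap ℚ K) := by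
      rw [h1]; ring
    rw [this, map_mul, hT, mul_zero, LinearMap.zero_apply]
  · intro x hx
    rw [Module.End.mem_maxGenEigenspace] at hx
    obtain ⟨m, hm⟩ := hx
    have h5 : aeval T ((X - C (σ α)) ^ n) x = 0 := by
      refine eq_zero_of_coprime (coprime_X_sub_pow h3 m) (T := T) ?_ ?_
      · rw [← Module.End.mul_apply, ← map_mul, mul_comm, map_mul, Module.End.mul_apply,
          aeval_X_sub_pow T (σ α) m, hm, map_zero]
      · rw [← Module.End.mul_apply, ← map_mul, mul_comm, ← h1, hT, LinearMap.zero_apply]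
    have h6 : aeval T (a.map (σ : K →+* K) * (X - C (σ α)) ^ n +
        b.map (σ : K →+* K) * Q.map (σ : K →+* K)) x = x := by
      rw [h2, map_one, Module.End.one_apply]
    rw [map_add, LinearMap.add_apply, map_mul (aeval T) (a.map _), Module.End.mul_apply, h5,
      map_zero, zero_add] at h6
    exact h6

end Poly

variable {k : Type u} [Field k] {𝒱 : VarClass k} {ops : CycleOps 𝒱}
  {W : WeilCohomology.{u, v} ops} {q : ℕ} {X Y X' Y' : 𝒱.Obj} {f : X ⟶ X} {g : Y ⟶ Y}
  {f' : X' ⟶ X'} {g' : Y' ⟶ Y'}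
  {M : Models W q} {C D : Cls 𝒱}

/-- The endomorphism `f` satisfies coprime polynomial equations with rational coefficients. -/
def WP (W : WeilCohomology.{u, v} ops) {X : 𝒱.Obj} (f : X ⟶ X) : Prop :=
  ∃ P : ℕ → Polynomial ℚ, (∀ i, P i ≠ 0) ∧ (∀ i j, i ≠ j → IsCoprime (P i) (P j)) ∧
    ∀ i, Kills (P i) (act W f) (W.gr X i)

lemma weil_poly (h : WP W f) :
    ∃ P : Polynomial ℚ, P ≠ 0 ∧
      Polynomial.aeval (act W f) (P.map (algebraMap ℚ W.K)) = 0 := by
  obtain ⟨P, hP, -, h⟩ := h
  refine ⟨∏ i ∈ Finset.range (2 * X.dim + 1), P i, Finset.prod_ne_zero_iff.2 (fun i _ => hP i), ?_⟩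
  apply LinearMap.ext
  intro x
  rw [LinearMap.zero_apply]
  refine gr_induction (W.isInternal X) (p := fun x => Polynomial.aeval (act W f)
    ((∏ i ∈ Finset.range (2 * X.dim + 1), P i).map (algebraMap ℚ W.K)) x = 0) ?_ ?_ x
  · intro i a ha
    by_cases hi : i ∈ Finset.range (2 * X.dim + 1)
    · rw [← Finset.prod_erase_mul _ _ hi, Polynomial.map_mul, map_mul, Module.End.mul_apply,
        h i a ha, map_zero]
    · rw [Finset.mem_range, not_lt] at hi
      rw [W.gr_eq_bot X i (by omega)] at ha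
      rw [(Submodule.mem_bot _).1 ha, map_zero]
  · intro a b ha hb
    rw [map_add, ha, hb, add_zero]

lemma isHom_act (f : X ⟶ X) : IsHom (W.gr X) 0 (act W f) := by
  intro j a ha
  rw [add_zero]
  by_cases hj : j < 0
  · rw [grZ_of_neg hj] at ha
    rw [(Submodule.mem_bot _).1 ha, map_zero]
    exact Submodule.zero_mem _
  · obtain ⟨m, rfl⟩ := Int.eq_ofNat_of_zero_le (not_lt.1 hj)
    rw [grZ_natCast] at ha ⊢
    exact act_mem ha

lemma proj_part (j : ℕ) {α : W.K} {x : W.H X} (hx : x ∈ Module.End.maxGenEigenspace (act W f) α) :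
    H914.proj (W.isInternal X) j x ∈ part W f j α := by
  refine ⟨?_, proj_mem _ _ _⟩
  have hcomm := ((isHom_act (W := W) f).proj_comm (W.isInternal X) j).symm
  have := gen_map (θ := H914.proj (W.isInternal X) j) (T := act W f) (T' := act W f)
    (c := 1) (ν := α) (fun x => by
      rw [one_smul]
      exact (congrArg (fun T => T x) hcomm)) hx
  rwa [one_mul] at this

/-- The eigenvalues of `f` in degree `i` are roots of the polynomial `P i`. -/
lemma root_of_part {i : ℕ} {P : Polynomial ℚ}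
    (h : ∀ c ∈ W.gr X i, Polynomial.aeval (act W f) (P.map (algebraMap ℚ W.K)) c = 0) {α : W.K}
    (hα : part W f i α ≠ ⊥) : Polynomial.aeval α P = 0 := by
  obtain ⟨x, hx, hx0⟩ := Submodule.exists_mem_ne_zero_of_ne_bot hα
  by_contra h1
  have h2 : (P.map (algebraMap ℚ W.K)).eval α ≠ 0 := by
    rwa [Polynomial.eval_map_algebraMap]
  have h3 : x ∈ (act W f).maxGenEigenspace α := hx.1
  rw [Module.End.mem_maxGenEigenspace] at h3
  obtain ⟨n, hn⟩ := h3
  exact hx0 (eq_zero_of_coprime (coprime_X_sub_pow h2 n) (T := act W f)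
    (by rw [aeval_X_sub_pow]; exact hn) (h x hx.2))

/-- The generalised eigenvectors for the conjugates of an eigenvalue in degree `i` have the
degree `i`. -/
lemma gen_conj_gr (h : WP W f) {i : ℕ} {α : W.K} (hα : part W f i α ≠ ⊥)
    (σ : W.K ≃+* W.K) {y : W.H X} (hy : y ∈ Module.End.maxGenEigenspace (act W f) (σ α)) :
    y ∈ part W f i (σ α) := by
  refine ⟨hy, ?_⟩
  obtain ⟨P, hP, hcop, h⟩ := h
  have h1 : ∀ j, j ≠ i → H914.proj (W.isInternal X) j y = 0 := by
    intro j hj
    by_contra h0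
    have h2 := root_of_part (h j) (ne_bot_of_mem (proj_part j hy) h0)
    have h3 := root_of_part (h i) hα
    have h4 : Polynomial.aeval α (P j) = 0 := by
      have h5 : (σ.toRingHom.toRatAlgHom) (Polynomial.aeval α (P j)) =
          Polynomial.aeval ((σ.toRingHom.toRatAlgHom) α) (P j) :=
        (Polynomial.aeval_algHom_apply (σ.toRingHom.toRatAlgHom) α (P j)).symm
      have h6 : (σ.toRingHom.toRatAlgHom) α = σ α := rfl
      rw [h6, h2] at h5
      exact (map_eq_zero σ).1 h5
    obtain ⟨a, b, hab⟩ := hcop j i hj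
    have h7 := congrArg (Polynomial.aeval α) hab
    rw [map_add, map_mul, map_mul, h4, h3, mul_zero, mul_zero, add_zero, map_one] at h7
    exact zero_ne_one h7
  have h2 := congrArg (fun F => F y) (sum_proj (W.isInternal X) (N := 2 * X.dim + 1)
    (fun i hi => W.gr_eq_bot X i (by omega)))
  simp only [LinearMap.sum_apply, Module.End.one_apply] at h2
  rw [← h2]
  apply Submodule.sum_mem
  intro j _
  by_cases hj : j = i
  · subst hj; exact proj_mem _ _ _
  · rw [h1 j hj]; exact Submodule.zero_mem _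

/-- `a(f × 1) b(1 × g)`. -/
noncomputable def opE (W : WeilCohomology.{u, v} ops) {X Y : 𝒱.Obj} (f : X ⟶ X) (g : Y ⟶ Y)
    (a b : Polynomial W.K) : Module.End W.K (W.H (X.prod Y)) :=
  Polynomial.aeval (act W (prodMap f (𝟙 Y))) a * Polynomial.aeval (act W (prodMap (𝟙 X) g)) b

lemma act_id (x : W.H X) : act W (𝟙 X) x = x := W.map_id X x

lemma opE_ext (a b : Polynomial W.K) (x : W.H X) (y : W.H Y) :
    opE W f g a b (ext W x y) =
      ext W (Polynomial.aeval (act W f) a x) (Polynomial.aeval (act W g) b y) := by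
  rw [opE, Module.End.mul_apply]
  have h1 := aeval_comm (θ := extBil W X Y x) (T := act W g) (T' := act W (prodMap (𝟙 X) g))
    (fun y => by rw [extBil_apply, extBil_apply, act_ext, act_id]) b y
  rw [extBil_apply, extBil_apply] at h1
  rw [← h1]
  have h2 := aeval_comm (θ := (extBil W X Y).flip (Polynomial.aeval (act W g) b y))
    (T := act W f) (T' := act W (prodMap f (𝟙 Y)))
    (fun x => by
      rw [LinearMap.flip_apply, LinearMap.flip_apply, extBil_apply, extBil_apply, act_ext,
        act_id]) a x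
  rw [LinearMap.flip_apply, LinearMap.flip_apply, extBil_apply, extBil_apply] at h2
  exact h2.symm

lemma act_pow_alg (m : ℕ) {Z : 𝒱.Obj} {h : Z ⟶ Z} {j : ℕ} {b : W.H Z}
    (hb : b ∈ algClasses W Z j) : (act W h ^ m) b ∈ algClasses W Z j := by
  induction m with
  | zero => exact hb
  | succ m ih =>
    rw [pow_succ', Module.End.mul_apply]
    obtain ⟨z, hz, hz'⟩ := ih
    exact ⟨ops.pull h z, ops.pull_mem h hz, by rw [W.cl_pull, hz']; rfl⟩

/-- The intersection numbers with the values of conjugate polynomials are conjugate. -/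
lemma tr_conj {j j' : ℕ} {c c' : W.H (X.prod Y)} (hc : c ∈ algClasses W (X.prod Y) j)
    (hc' : c' ∈ algClasses W (X.prod Y) j') (a b : Polynomial W.K) (σ : W.K ≃+* W.K) :
    σ (W.tr _ (c * opE W f g a b c')) =
      W.tr _ (c * opE W f g (a.map (σ : W.K →+* W.K)) (b.map (σ : W.K →+* W.K)) c') := by
  induction a using Polynomial.induction_on' with
  | add p q hp hq =>
    rw [Polynomial.map_add, opE, opE, map_add, map_add, add_mul, add_mul, LinearMap.add_apply,
      LinearMap.add_apply, mul_add, mul_add, map_add, map_add, map_add]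
    rw [opE, opE] at hp hq
    rw [hp, hq]
  | monomial m r =>
    induction b using Polynomial.induction_on' with
    | add p q hp hq =>
      rw [Polynomial.map_add, opE, opE, map_add, map_add, mul_add, mul_add, LinearMap.add_apply,
        LinearMap.add_apply, mul_add, mul_add, map_add, map_add, map_add]
      rw [opE, opE] at hp hq
      rw [hp, hq]
    | monomial n t =>
      have key : ∀ r t : W.K, opE W f g (Polynomial.monomial m r) (Polynomial.monomial n t) c' =
          (r * t) • (act W (prodMap f (𝟙 Y)) ^ m) ((act W (prodMap (𝟙 X) g) ^ n) c') := by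
        intro r t
        rw [opE, Polynomial.aeval_monomial, Polynomial.aeval_monomial,
          Algebra.algebraMap_eq_smul_one, Algebra.algebraMap_eq_smul_one, smul_one_mul,
          smul_one_mul, smul_mul_smul_comm, LinearMap.smul_apply, Module.End.mul_apply]
      rw [Polynomial.map_monomial, Polynomial.map_monomial, key, key, mul_smul_comm,
        mul_smul_comm, LinearMap.map_smul, LinearMap.map_smul, smul_eq_mul, smul_eq_mul, map_mul,
        map_mul]
      obtain ⟨s, hs⟩ := alg_rat hc (act_pow_alg (h := prodMap f (𝟙 Y)) m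
        (act_pow_alg (h := prodMap (𝟙 X) g) n hc'))
      rw [bil_apply] at hs
      rw [hs, map_ratCast]
      rfl

section Closed

variable [IsAlgClosed W.K]

omit [IsAlgClosed W.K] in
lemma conj_mul (σ : W.K ≃+* W.K) (a b : Freq W.K) : conj σ (a * b) = conj σ a * conj σ b := by
  refine Prod.ext rfl ?_
  exact map_mul (Units.map (σ : W.K →* W.K)) (valOf a) (valOf b)

/-- The action of an automorphism as a homomorphism. -/
noncomputable def conjHom (W : WeilCohomology.{u, v} ops) (σ : W.K ≃+* W.K) :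
    Freq W.K →* Freq W.K :=
  MonoidHom.mk' (conj σ) (conj_mul σ)

omit [IsAlgClosed W.K] in
lemma conj₂_inv (σ : W.K ≃+* W.K) (p : Pair W.K) : conj₂ σ p⁻¹ = (conj₂ σ p)⁻¹ :=
  Prod.ext (map_inv (conjHom W σ) p.1) (map_inv (conjHom W σ) p.2)

omit [IsAlgClosed W.K] in
lemma conj_tw (hq : q ≠ 0) (σ : W.K ≃+* W.K) : conj σ (tw W.K hq) = tw W.K hq := by
  refine Prod.ext rfl (Units.ext ?_)
  change σ (q : W.K) = q
  exact map_natCast σ q

omit [IsAlgClosed W.K] in
lemma conj_mem (hq : q ≠ 0) (σ : W.K ≃+* W.K) {a : Freq W.K}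
    (h : a ∈ Subgroup.zpowers (tw W.K hq)) : conj σ a ∈ Subgroup.zpowers (tw W.K hq) := by
  obtain ⟨t, rfl⟩ := Subgroup.mem_zpowers_iff.1 h
  have h1 : conj σ (tw W.K hq ^ t) = conj σ (tw W.K hq) ^ t := map_zpow (conjHom W σ) _ t
  rw [h1, conj_tw]
  exact Subgroup.mem_zpowers_iff.2 ⟨t, rfl⟩

/-- The pairs of Tate twists are realised. -/
lemma tw_realised (hq : q ≠ 0) (hC : IsClass M C) (hD : IsClass M D)
    {p : Pair W.K} (h1 : p.1 ∈ Subgroup.zpowers (tw W.K hq))
    (h2 : p.2 ∈ Subgroup.zpowers (tw W.K hq)) : Realised' W hq C D p := by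
  obtain ⟨X, f, hX, h3⟩ := hC.nonempty
  obtain ⟨Y, g, hY, h4⟩ := hD.nonempty
  have h5 : fr ((0 : ℕ) : ℤ) (1 : W.Kˣ) = 1 := rfl
  refine realised_of_alg (α := 1) (β := 1) (i := 0) (j := 0) (x := 1) (y := 1) hq hC hD
      hX hY one_part' one_part' h3 h4 ext_one_one_alg ?_ ?_
  · rwa [h5, div_one]
  · rwa [h5, div_one]

omit [IsAlgClosed W.K] in
/-- **Conjugate pairs.** If a pair and its inverse are realised then all the conjugates of the pair
are realised. -/
theorem realised_conj (hq : q ≠ 0) (hC : IsClass M C) (hD : IsClass M D)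
    (TC : TateClass W q C) (TD : TateClass W q D)
    (PC : HasWeilPolys W C) (PD : HasWeilPolys W D)
    {p : Pair W.K} (hp : Realised' W hq C D p) (hp' : Realised' W hq C D p⁻¹)
    (σ : W.K ≃+* W.K) : Realised' W hq C D (conj₂ σ p) := by
  obtain ⟨X, f, Y, g, i, j, c, α, β, u, w, z, hX, hY, hz, hu, hw, h3, h4, hne⟩ := hp
  obtain ⟨hu0, hw0⟩ := ne_zero_of_tr_ext hne
  have h5 : ext W u w ∈ algSpan W (X.prod Y) := by
    refine alg_of_realised hq hC hD TC TD hp' hX hY hu hw ?_ ?_
    · have := Subgroup.inv_mem _ h3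
      rwa [mul_inv, ← div_eq_mul_inv] at this
    · have := Subgroup.inv_mem _ h4
      rwa [mul_inv, ← div_eq_mul_inv] at this
  obtain ⟨P, hP, hPf⟩ := weil_poly (PC X f hX)
  obtain ⟨Q, hQ, hQg⟩ := weil_poly (PD Y g hY)
  obtain ⟨a, ha⟩ := exists_proj hP hPf (α : W.K)
  obtain ⟨b, hb⟩ := exists_proj hQ hQg (β : W.K)
  have ha1 : Polynomial.aeval (act W f) a u = u := by
    have := (ha (RingEquiv.refl _)).2 u hu.1
    rwa [show ((RingEquiv.refl W.K : W.K ≃+* W.K) : W.K →+* W.K) = RingHom.id _ from rfl,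
      Polynomial.map_id] at this
  have hb1 : Polynomial.aeval (act W g) b w = w := by
    have := (hb (RingEquiv.refl _)).2 w hw.1
    rwa [show ((RingEquiv.refl W.K : W.K ≃+* W.K) : W.K →+* W.K) = RingHom.id _ from rfl,
      Polynomial.map_id] at this
  have h6 : opE W f g a b (ext W u w) = ext W u w := by rw [opE_ext, ha1, hb1]
  -- a cycle which detects the component of `z`
  have h7 : ∃ (d : ℕ) (z' : (X.prod Y).Cycles), (X.prod Y).IsCyc d z' ∧
      W.tr _ (W.cl _ z * opE W f g a b (W.cl _ z')) ≠ 0 := by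
    by_contra h
    push Not at h
    apply hne
    rw [← h6]
    refine algSpan_induction (p := fun e => W.tr _ (W.cl _ z * opE W f g a b e) = 0)
      ?_ ?_ ?_ ?_ h5
    · rw [map_zero, mul_zero, map_zero]
    · intro e e' he he'; rw [map_add, mul_add, map_add, he, he', add_zero]
    · intro t e he; rw [map_smul, mul_smul_comm, map_smul, he, smul_zero]
    · intro d z' hz'; exact h d z' hz'
  obtain ⟨d, z', hz', h8⟩ := h7
  have h9 : W.tr _ (W.cl _ z * opE W f g (a.map (σ : W.K →+* W.K)) (b.map (σ : W.K →+* W.K))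
      (W.cl _ z')) ≠ 0 := by
    rw [← tr_conj (j := c) (j' := d) ⟨z, hz, rfl⟩ ⟨z', hz', rfl⟩ a b σ]
    exact fun h => h8 ((map_eq_zero σ).1 h)
  have h10 : ∃ (x : W.H X) (y : W.H Y), W.tr _ (W.cl _ z * ext W
      (Polynomial.aeval (act W f) (a.map (σ : W.K →+* W.K)) x)
      (Polynomial.aeval (act W g) (b.map (σ : W.K →+* W.K)) y)) ≠ 0 := by
    by_contra h
    push Not at h
    apply h9
    refine W.kunneth_induction (p := fun e => W.tr _ (W.cl _ z * opE W f g
      (a.map (σ : W.K →+* W.K)) (b.map (σ : W.K →+* W.K)) e) = 0) ?_ ?_ _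
    · intro e e' he he'; rw [map_add, mul_add, map_add, he, he', add_zero]
    · intro i' j' x hx y hy
      have h11 := opE_ext (f := f) (g := g) (a.map (σ : W.K →+* W.K)) (b.map (σ : W.K →+* W.K)) x y
      rw [ext] at h11
      rw [h11]
      exact h x y
  obtain ⟨x, y, h11⟩ := h10
  refine ⟨X, f, Y, g, i, j, c, Units.map (σ : W.K →* W.K) α, Units.map (σ : W.K →* W.K) β, _, _,
    z, hX, hY, hz, gen_conj_gr (PC X f hX) (ne_bot_of_mem hu hu0) σ ((ha σ).1 x),
    gen_conj_gr (PD Y g hY) (ne_bot_of_mem hw hw0) σ ((hb σ).1 y), ?_, ?_, h11⟩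
  · have := conj_mem hq σ h3
    rwa [conj_mul] at this
  · have := conj_mem hq σ h4
    rwa [conj_mul] at this

omit [IsAlgClosed W.K] in
lemma pow_mem_tatePairs (hq : q ≠ 0) {s a : ℕ} {p : Pair W.K}
    (h : p ∈ tatePairs W hq (s * a)) : p ^ a ∈ tatePairs W hq s := by
  obtain ⟨c, h1, h2⟩ := h
  have h3 : (p ^ a).1 * (p ^ a).2 = (p.1 * p.2) ^ a := (mul_pow p.1 p.2 a).symm
  have h4 : degOf ((p.1 * p.2) ^ a) = a • degOf (p.1 * p.2) := rfl
  have h5 : valOf ((p.1 * p.2) ^ a) = valOf (p.1 * p.2) ^ a := rfl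
  refine ⟨a * c, ?_, ?_⟩
  · rw [h3, h4, h1, nsmul_eq_mul]
    ring
  · rw [h3, h5, ← pow_mul, mul_comm a s, h2]
    congr 1
    push_cast
    ring

/-- **Composite extensions.** -/
theorem tate_lcm (hq : q ≠ 0) (hC : IsClass M C) (hD : IsClass M D)
    (TC : TateClass W q C) (TD : TateClass W q D) {s t : ℕ} (hs : 0 < s) (ht : 0 < t)
    (h1 : TateProducts W q C D s) (h2 : TateProducts W q C D t) :
    TateProducts W q C D (Nat.lcm s t) := by
  rw [tate_iff hq hC hD TC TD] at h1 h2 ⊢
  rintro p ⟨hp1, hp2, hp⟩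
  obtain ⟨a, ha⟩ := Nat.dvd_lcm_left s t
  obtain ⟨b, hb⟩ := Nat.dvd_lcm_right s t
  have hab : Nat.Coprime a b := by
    have h3 : Nat.lcm s t ≠ 0 := Nat.lcm_ne_zero hs.ne' ht.ne'
    have h4 : s * a = t * b := ha.symm.trans hb
    have ha0 : 0 < a := Nat.pos_of_ne_zero (by rintro rfl; rw [mul_zero] at ha; exact h3 ha)
    -- `lcm s t` divides `s (a / d)`
    set d := Nat.gcd a b with hd
    obtain ⟨a', ha'⟩ := Nat.gcd_dvd_left a b
    obtain ⟨b', hb'⟩ := Nat.gcd_dvd_right a b
    have hd0 : 0 < d := Nat.gcd_pos_of_pos_left _ ha0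
    have h5 : s * a' = t * b' := by
      have : d * (s * a') = d * (t * b') := by
        calc d * (s * a') = s * (d * a') := by ring
          _ = s * a := by rw [hd, ← ha']
          _ = t * b := h4
          _ = t * (d * b') := by rw [hd, ← hb']
          _ = d * (t * b') := by ring
      exact Nat.eq_of_mul_eq_mul_left hd0 this
    have h6 : Nat.lcm s t ∣ s * a' := Nat.lcm_dvd ⟨a', rfl⟩ ⟨b', h5⟩
    have h7 : s * a ∣ s * a' := by rwa [← ha]
    have h8 : a ∣ a' := Nat.dvd_of_mul_dvd_mul_left hs h7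
    have ha'0 : 0 < a' := Nat.pos_of_ne_zero (by
      rintro rfl
      rw [mul_zero] at ha'
      omega)
    have h9 : a ≤ a' := Nat.le_of_dvd ha'0 h8
    have h10 : d = 1 := by
      have h11 : d * a' ≤ 1 * a' := by rw [one_mul, hd, ← ha']; exact h9
      have := Nat.le_of_mul_le_mul_right h11 ha'0
      omega
    exact h10
  obtain ⟨m, n, hmn⟩ := (Nat.isCoprime_iff_coprime.2 hab)
  set R := realisedMonoid hq hC hD TC TD
  have hFC := (mem_freqGroup hq hC (l := p.1)).2 hp1
  have hFD := (mem_freqGroup hq hD (l := p.2)).2 hp2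
  have h3 : (p ^ a) ^ m ∈ R := by
    refine h1 _ ⟨?_, ?_, ?_⟩
    · exact Subgroup.zpow_mem _ (Subgroup.pow_mem _ hFC a) m
    · exact Subgroup.zpow_mem _ (Subgroup.pow_mem _ hFD a) m
    · exact Subgroup.zpow_mem _ (pow_mem_tatePairs hq (ha ▸ hp)) m
  have h4 : (p ^ b) ^ n ∈ R := by
    refine h2 _ ⟨?_, ?_, ?_⟩
    · exact Subgroup.zpow_mem _ (Subgroup.pow_mem _ hFC b) n
    · exact Subgroup.zpow_mem _ (Subgroup.pow_mem _ hFD b) n
    · exact Subgroup.zpow_mem _ (pow_mem_tatePairs hq (hb ▸ hp)) n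
  have h5 := R.mul_mem h3 h4
  have h6 : (p ^ a) ^ m * (p ^ b) ^ n = p := by
    rw [← zpow_natCast, ← zpow_natCast p b, ← zpow_mul, ← zpow_mul, ← zpow_add, mul_comm (a : ℤ),
      mul_comm (b : ℤ), hmn, zpow_one]
  rw [h6] at h5
  exact h5

end Closed

end Pool.Agent.H18.Glue
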