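import Pool.Agent.H18.Glue.Exchange

/-!
# The monoid of the realised pairs of frequencies
-/

set_option autoImplicit false

open CategoryTheory AlgebraicGeometry

universe u v

namespace Pool.Agent.H18.Glue

open Pool.Agent.H914 Pool.Agent.H914.VarClass Pool.Agent.H914.VarClass.Obj
  Pool.Agent.H914.WeilCohomology Pool.Agent.H281R3.HT Pool.Agent.Y133.Half Pool.Agent.W458.MF
  Pool.Agent.W536.RR

section Grp

variable {G : Type*} [CommGroup G] (N : Subgroup G) {a x u : G}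

lemma g1 (h1 : a / x ∈ N) (h2 : x * u ∈ N) : a * u ∈ N := by
  have := N.mul_mem h1 h2
  rwa [← mul_assoc, div_mul_cancel] at this

lemma g2 (h1 : a * u ∈ N) (h2 : x * u ∈ N) : a / x ∈ N := by
  have := N.div_mem h1 h2
  rwa [mul_div_mul_right_eq_div] at this

lemma g3 (h1 : a * u ∈ N) (h2 : a / x ∈ N) : x * u ∈ N := by
  have := N.div_mem h1 h2
  rwa [mul_div_div_cancel, mul_comm] at this

lemma g4 {b y : G} (h1 : a / x ∈ N) (h2 : b / y ∈ N) : a * b / (x * y) ∈ N := by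
  have := N.mul_mem h1 h2
  rwa [div_mul_div_comm] at this

end Grp

variable {k : Type u} [Field k] {𝒱 : VarClass k} {ops : CycleOps 𝒱}
  {W : WeilCohomology.{u, v} ops} {q : ℕ} {X Y X' Y' : 𝒱.Obj} {f : X ⟶ X} {g : Y ⟶ Y}
  {f' : X' ⟶ X'} {g' : Y' ⟶ Y'}
  {M : Models W q} {C D : Cls 𝒱}

lemma fr_mul (i j : ℤ) (α β : W.Kˣ) : fr i α * fr j β = fr (i + j) (α * β) := rfl

lemma fr_inj {i j : ℤ} {α β : W.Kˣ} (h : fr i α = fr j β) : i = j ∧ α = β :=
  ⟨congrArg (fun p : Freq W.K => Multiplicative.toAdd p.1) h, congrArg Prod.snd h⟩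

lemma qUnit_val (hq : q ≠ 0) : ((qUnit W.K hq : W.Kˣ) : W.K) = (q : W.K) := rfl

lemma tw_zpow (hq : q ≠ 0) (t : ℤ) :
    tw W.K hq ^ t = fr (2 * t) (qUnit W.K hq ^ t) := by
  refine Prod.ext ?_ rfl
  change Multiplicative.ofAdd (2 : ℤ) ^ t = Multiplicative.ofAdd (2 * t)
  rw [← ofAdd_zsmul, smul_eq_mul, mul_comm]

lemma mem_zp (hq : q ≠ 0) {i : ℕ} {α : W.Kˣ} :
    fr (i : ℤ) α ∈ Subgroup.zpowers (tw W.K hq) ↔
      ∃ t : ℕ, i = 2 * t ∧ (α : W.K) = (q : W.K) ^ t := by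
  constructor
  · intro h
    obtain ⟨t, ht⟩ := Subgroup.mem_zpowers_iff.1 h
    rw [tw_zpow] at ht
    obtain ⟨h1, h2⟩ := fr_inj ht
    obtain ⟨n, rfl⟩ := Int.eq_ofNat_of_zero_le (show 0 ≤ t by omega)
    refine ⟨n, by omega, ?_⟩
    rw [← h2, zpow_natCast, Units.val_pow_eq_pow_val, qUnit_val]
  · rintro ⟨t, rfl, h2⟩
    refine Subgroup.mem_zpowers_iff.2 ⟨t, ?_⟩
    rw [tw_zpow]
    refine Prod.ext ?_ (Units.ext ?_)
    · change Multiplicative.ofAdd _ = Multiplicative.ofAdd _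
      congr 1
    · change ((qUnit W.K hq ^ (t : ℤ) : W.Kˣ) : W.K) = (α : W.K)
      rw [h2, zpow_natCast, Units.val_pow_eq_pow_val, qUnit_val]

lemma mem_zp₂ (hq : q ≠ 0) {i j : ℕ} {α β : W.Kˣ} :
    fr (i : ℤ) α * fr (j : ℤ) β ∈ Subgroup.zpowers (tw W.K hq) ↔
      ∃ t : ℕ, i + j = 2 * t ∧ (α : W.K) * β = (q : W.K) ^ t := by
  rw [fr_mul, ← Nat.cast_add, mem_zp]
  simp only [Units.val_mul]

lemma algOver_le (s j : ℕ) : algOver W q f s j ≤ algSpan W X := by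
  rw [algOver, Submodule.span_le]
  rintro _ ⟨z, hz, rfl, -⟩
  exact cl_mem_algSpan hz

lemma dual_alg (hq : q ≠ 0) (hC : IsClass M C) (TC : TateClass W q C) (hX : C X f)
    (hX' : C X' f') {i j : ℕ} {α β : W.Kˣ} {x : W.H X} {u : W.H X'} (hx : x ∈ part W f i α)
    (hu : u ∈ part W f' j β) (h : fr (i : ℤ) α * fr (j : ℤ) β ∈ Subgroup.zpowers (tw W.K hq)) :
    ext W x u ∈ algSpan W (X.prod X') := by
  obtain ⟨t, h1, h2⟩ := (mem_zp₂ hq).1 h
  have h3 := part_ext hx hu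
  have h4 : ext W x u ∈ genOver W q (prodMap f f') 1 t := by
    rw [genOver, genSp, pow_one, one_mul, ← h2, ← h1]
    exact h3
  rw [(TC _ _ (hC.prod hX hX') t).1, (TC _ _ (hC.prod hX hX') t).2] at h4
  exact algOver_le _ _ h4

lemma pairing_fr (hq : q ≠ 0) (hf : M.mem X f) {i j : ℕ} {α β : W.Kˣ} {x u : W.H X}
    (hx : x ∈ part W f i α) (hu : u ∈ part W f j β) (h : W.tr X (x * u) ≠ 0) :
    fr (i : ℤ) α * fr (j : ℤ) β ∈ Subgroup.zpowers (tw W.K hq) :=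
  (mem_zp₂ hq).2 ⟨X.dim, pairing hf hx hu h⟩

lemma ne_bot_of_mem {i : ℕ} {α : W.K} {x : W.H X} (hx : x ∈ part W f i α) (h : x ≠ 0) :
    part W f i α ≠ ⊥ := fun h' => h (by rw [h'] at hx; exact (Submodule.mem_bot _).1 hx)

lemma exists_dual_unit [IsAlgClosed W.K] (hq : q ≠ 0) (hf : M.mem X f) {x : W.H X} (hx : x ≠ 0) :
    ∃ (i : ℕ) (α : W.Kˣ) (u : W.H X), u ∈ part W f i α ∧ W.tr X (x * u) ≠ 0 := by
  obtain ⟨i, α, u, hu, h⟩ := exists_dual_part f hx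
  have hu0 : u ≠ 0 := by rintro rfl; rw [mul_zero, map_zero] at h; exact h rfl
  exact ⟨i, Units.mk0 α (eigenvalue_ne_zero hq hf (ne_bot_of_mem hu hu0)), u, hu, h⟩

lemma ne_zero_of_tr_ext {c : W.H (X.prod Y)} {u : W.H X} {w : W.H Y}
    (h : W.tr (X.prod Y) (c * ext W u w) ≠ 0) : u ≠ 0 ∧ w ≠ 0 := by
  constructor
  · rintro rfl
    apply h
    rw [ext, map_zero, zero_mul, mul_zero, map_zero]
  · rintro rfl
    apply h
    rw [ext, map_zero, mul_zero, mul_zero, map_zero]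

lemma tr_ext_ne_zero {j i' : ℕ} {x x' : W.H X} {y y' : W.H Y} (hy : y ∈ W.gr Y j)
    (hx' : x' ∈ W.gr X i') (h1 : W.tr X (x * x') ≠ 0) (h2 : W.tr Y (y * y') ≠ 0) :
    W.tr (X.prod Y) (ext W x y * ext W x' y') ≠ 0 := by
  rw [tr_ext_mul_ext hy hx']
  exact mul_ne_zero (pow_ne_zero _ (neg_ne_zero.2 one_ne_zero)) (mul_ne_zero h1 h2)

lemma of_tr_ext_ne_zero {j i' : ℕ} {x x' : W.H X} {y y' : W.H Y} (hy : y ∈ W.gr Y j)
    (hx' : x' ∈ W.gr X i') (h : W.tr (X.prod Y) (ext W x y * ext W x' y') ≠ 0) :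
    W.tr X (x * x') ≠ 0 ∧ W.tr Y (y * y') ≠ 0 := by
  rw [tr_ext_mul_ext hy hx'] at h
  have h1 := right_ne_zero_of_mul h
  exact ⟨left_ne_zero_of_mul h1, right_ne_zero_of_mul h1⟩

section Closed

variable [IsAlgClosed W.K]

/-- A pair of frequencies is realised if a non-zero external product of these frequencies is a
linear combination of classes of cycles. -/
lemma realised_of_alg (hq : q ≠ 0) (hC : IsClass M C) (hD : IsClass M D) (hX : C X f)
    (hY : D Y g) {i j : ℕ} {α β : W.Kˣ} {x : W.H X} {y : W.H Y} (hx : x ∈ part W f i α)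
    (hy : y ∈ part W g j β) (hx0 : x ≠ 0) (hy0 : y ≠ 0) (h : ext W x y ∈ algSpan W (X.prod Y))
    {p : Pair W.K} (h1 : p.1 / fr i α ∈ Subgroup.zpowers (tw W.K hq))
    (h2 : p.2 / fr j β ∈ Subgroup.zpowers (tw W.K hq)) : Realised' W hq C D p := by
  obtain ⟨i', α', u, hu, hxu⟩ := exists_dual_unit hq (hC.le hX) hx0
  obtain ⟨j', β', w, hw, hyw⟩ := exists_dual_unit hq (hD.le hY) hy0
  obtain ⟨c, z, hz, hne⟩ := exists_cycle h (tr_ext_ne_zero hy.2 hu.2 hxu hyw)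
  exact ⟨X, f, Y, g, i', j', c, α', β', u, w, z, hX, hY, hz, hu, hw,
    g1 _ h1 (pairing_fr hq (hC.le hX) hx hu hxu), g1 _ h2 (pairing_fr hq (hD.le hY) hy hw hyw), hne⟩

omit [IsAlgClosed W.K] in
/-- All the external products whose frequencies are a realised pair are linear combinations
of classes of cycles. -/
lemma alg_of_realised (hq : q ≠ 0) (hC : IsClass M C) (hD : IsClass M D)
    (TC : TateClass W q C) (TD : TateClass W q D) {p : Pair W.K}
    (hp : Realised' W hq C D p) (hX : C X f) (hY : D Y g) {i j : ℕ} {α β : W.Kˣ} {x : W.H X}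
    {y : W.H Y} (hx : x ∈ part W f i α) (hy : y ∈ part W g j β)
    (h1 : p.1 / fr i α ∈ Subgroup.zpowers (tw W.K hq))
    (h2 : p.2 / fr j β ∈ Subgroup.zpowers (tw W.K hq)) : ext W x y ∈ algSpan W (X.prod Y) := by
  obtain ⟨X', f', Y', g', i', j', c, α', β', u, w, z, hX', hY', hz, hu, hw, h3, h4, hne⟩ := hp
  have h5 : ext W x u ∈ algSpan W (X.prod X') :=
    dual_alg hq hC TC hX hX' hx hu (g3 _ h3 h1)
  have h6 : ext W y w ∈ algSpan W (Y.prod Y') :=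
    dual_alg hq hD TD hY hY' hy hw (g3 _ h4 h2)
  exact exchange hy.2 hu.2 hw.2 h5 h6 hz hne

/-- The frequencies of a realised pair are frequencies of the classes. -/
lemma freq_of_realised (hq : q ≠ 0) (hC : IsClass M C) (hD : IsClass M D)
    {p : Pair W.K} (hp : Realised' W hq C D p) :
    IsFreq' W hq C p.1 ∧ IsFreq' W hq D p.2 := by
  obtain ⟨X', f', Y', g', i', j', c, α', β', u, w, z, hX', hY', hz, hu, hw, h3, h4, hne⟩ := hp
  obtain ⟨hu0, hw0⟩ := ne_zero_of_tr_ext hne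
  constructor
  · obtain ⟨i, α, x, hx, hxu⟩ := exists_dual_unit hq (hC.le hX') hu0
    have hx0 : x ≠ 0 := by rintro rfl; rw [mul_zero, map_zero] at hxu; exact hxu rfl
    refine ⟨X', f', i, α, hX', ⟨x, hx, hx0⟩, g2 _ h3 ?_⟩
    rw [mul_comm]
    exact pairing_fr hq (hC.le hX') hu hx hxu
  · obtain ⟨i, α, x, hx, hxu⟩ := exists_dual_unit hq (hD.le hY') hw0
    have hx0 : x ≠ 0 := by rintro rfl; rw [mul_zero, map_zero] at hxu; exact hxu rfl
    refine ⟨Y', g', i, α, hY', ⟨x, hx, hx0⟩, g2 _ h4 ?_⟩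
    rw [mul_comm]
    exact pairing_fr hq (hD.le hY') hw hx hxu

lemma ext_ne_zero (hq : q ≠ 0) (hf : M.mem X f) (hg : M.mem Y g) {j : ℕ} {x : W.H X}
    {y : W.H Y} (hx0 : x ≠ 0) (hy0 : y ≠ 0) (hy : y ∈ W.gr Y j) :
    ext W x y ≠ 0 := by
  obtain ⟨i', α', u, hu, hxu⟩ := exists_dual_unit hq hf hx0
  obtain ⟨j', β', w, hw, hyw⟩ := exists_dual_unit hq hg hy0
  intro h
  apply tr_ext_ne_zero hy hu.2 hxu hyw
  rw [h, zero_mul, map_zero]

omit [IsAlgClosed W.K] in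
lemma one_part : (1 : W.H X) ∈ part W f 0 1 := by
  refine ⟨eig_mem_gen ?_, W.one_mem X⟩
  rw [act_one, one_smul]

omit [IsAlgClosed W.K] in
lemma one_part' : (1 : W.H X) ∈ part W f 0 ((1 : W.Kˣ) : W.K) := by
  rw [Units.val_one]
  exact one_part

/-- The frequencies of the class `C` form a group. -/
noncomputable def freqGroup (hq : q ≠ 0) (hC : IsClass M C) : Subgroup (Freq W.K) where
  carrier := {l | IsFreq' W hq C l}
  one_mem' := by
    obtain ⟨X, f, hX, h1⟩ := hC.nonempty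
    refine ⟨X, f, 0, 1, hX, ⟨1, one_part', h1⟩, ?_⟩
    have : (1 : Freq W.K) / fr ((0 : ℕ) : ℤ) (1 : W.Kˣ) = 1 := by
      rw [div_eq_one]; rfl
    rw [EqMod, this]
    exact Subgroup.one_mem _
  mul_mem' := by
    rintro a b ⟨X, f, i, α, hX, ⟨x, hx, hx0⟩, h1⟩ ⟨Y, g, j, β, hY, ⟨y, hy, hy0⟩, h2⟩
    refine ⟨X.prod Y, prodMap f g, i + j, α * β, hC.prod hX hY,
      ⟨ext W x y, ?_, ext_ne_zero hq (hC.le hX) (hC.le hY) hx0 hy0 hy.2⟩, ?_⟩
    · rw [upart, Units.val_mul]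
      exact part_ext hx hy
    · have := g4 _ h1 h2
      rwa [fr_mul, ← Nat.cast_add] at this
  inv_mem' := by
    rintro a ⟨X, f, i, α, hX, ⟨x, hx, hx0⟩, h1⟩
    obtain ⟨j, β, u, hu, hxu⟩ := exists_dual_unit hq (hC.le hX) hx0
    have hu0 : u ≠ 0 := by rintro rfl; rw [mul_zero, map_zero] at hxu; exact hxu rfl
    refine ⟨X, f, j, β, hX, ⟨u, hu, hu0⟩, ?_⟩
    have h2 := g1 _ h1 (pairing_fr hq (hC.le hX) hx hu hxu)
    have h3 := Subgroup.inv_mem _ h2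
    rwa [mul_inv, ← div_eq_mul_inv] at h3

lemma mem_freqGroup (hq : q ≠ 0) (hC : IsClass M C) {l : Freq W.K} :
    l ∈ freqGroup hq hC ↔ IsFreq' W hq C l := Iff.rfl

omit [IsAlgClosed W.K] in
lemma ext_one_one_alg : ext W (1 : W.H X) (1 : W.H Y) ∈ algSpan W (X.prod Y) := by
  have h : ext W (1 : W.H X) (1 : W.H Y) = 1 := by
    rw [ext, map_one, map_one, mul_one]
  rw [h]
  exact one_mem_algSpan

/-- The realised pairs form a monoid. -/
noncomputable def realisedMonoid (hq : q ≠ 0) (hC : IsClass M C) (hD : IsClass M D)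
    (TC : TateClass W q C) (TD : TateClass W q D) : Submonoid (Pair W.K) where
  carrier := {p | Realised' W hq C D p}
  one_mem' := by
    obtain ⟨X, f, hX, h1⟩ := hC.nonempty
    obtain ⟨Y, g, hY, h2⟩ := hD.nonempty
    have h3 : (1 : Freq W.K) / fr ((0 : ℕ) : ℤ) (1 : W.Kˣ) ∈ Subgroup.zpowers (tw W.K hq) := by
      have : (1 : Freq W.K) / fr ((0 : ℕ) : ℤ) (1 : W.Kˣ) = 1 := by
        rw [div_eq_one]; rfl
      rw [this]
      exact Subgroup.one_mem _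
    exact realised_of_alg (α := 1) (β := 1) (i := 0) (j := 0) (x := 1) (y := 1) (p := 1) hq hC hD
      hX hY one_part' one_part' h1 h2 ext_one_one_alg h3 h3
  mul_mem' := by
    rintro a b ha hb
    obtain ⟨⟨X, f, i, α, hX, ⟨x, hx, hx0⟩, h1⟩, ⟨Y, g, j, β, hY, ⟨y, hy, hy0⟩, h2⟩⟩ :=
      freq_of_realised hq hC hD ha
    obtain ⟨⟨X', f', i', α', hX', ⟨x', hx', hx0'⟩, h1'⟩,
      ⟨Y', g', j', β', hY', ⟨y', hy', hy0'⟩, h2'⟩⟩ := freq_of_realised hq hC hD hb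
    have h3 := alg_of_realised hq hC hD TC TD ha hX hY hx hy h1 h2
    have h4 := alg_of_realised hq hC hD TC TD hb hX' hY' hx' hy' h1' h2'
    have h5 := ext_ext_alg hy.2 hx'.2 h3 h4
    refine realised_of_alg hq hC hD (hC.prod hX hX') (hD.prod hY hY') (i := i + i') (j := j + j')
      (α := α * α') (β := β * β') (x := ext W x x') (y := ext W y y') ?_ ?_
      (ext_ne_zero hq (hC.le hX) (hC.le hX') hx0 hx0' hx'.2)
      (ext_ne_zero hq (hD.le hY) (hD.le hY') hy0 hy0' hy'.2) h5 ?_ ?_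
    · rw [Units.val_mul]; exact part_ext hx hx'
    · rw [Units.val_mul]; exact part_ext hy hy'
    · have := g4 _ h1 h1'
      rwa [fr_mul, ← Nat.cast_add] at this
    · have := g4 _ h2 h2'
      rwa [fr_mul, ← Nat.cast_add] at this

end Closed

end Pool.Agent.H18.Glue
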