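import Pool.Agent.H18.Glue.Main

/-!
# The structure of the algebraic classes on products
-/

set_option autoImplicit false

open CategoryTheory AlgebraicGeometry

universe u v

namespace Pool.Agent.H18.Glue

open Pool.Agent.H914 Pool.Agent.H914.VarClass Pool.Agent.H914.VarClass.Obj
  Pool.Agent.H914.WeilCohomology Pool.Agent.H281R3.HT Pool.Agent.Y133.Half Pool.Agent.W458.MF
  Pool.Agent.W536.RR

variable {k : Type u} [Field k] {𝒱 : VarClass k} {ops : CycleOps 𝒱}
  {W : WeilCohomology.{u, v} ops} {q : ℕ} {X Y X' Y' : 𝒱.Obj} {f : X ⟶ X} {g : Y ⟶ Y}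
  {f' : X' ⟶ X'} {g' : Y' ⟶ Y'}
  {M : Models W q} {C D : Cls 𝒱}

lemma mem_pieces {S : Set (Pair W.K)} {i j : ℕ} {α β : W.Kˣ} {x : W.H X} {y : W.H Y}
    (hx : x ∈ part W f i α) (hy : y ∈ part W g j β) (h : (fr (i : ℤ) α, fr (j : ℤ) β) ∈ S) :
    ext W x y ∈ pieces' W f g S :=
  Submodule.subset_span ⟨i, j, α, β, x, y, hx, hy, h, rfl⟩

/-- Every class is the sum of its components in `S` and outside of `S`. -/
lemma split [IsAlgClosed W.K] (hq : q ≠ 0) (hf : M.mem X f) (hg : M.mem Y g)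
    (S : Set (Pair W.K)) (c : W.H (X.prod Y)) :
    ∃ b ∈ pieces' W f g S, ∃ n ∈ pieces' W f g Sᶜ, c = b + n := by
  have h : c ∈ pieces' W f g S ⊔ pieces' W f g Sᶜ := by
    refine Submodule.span_le.2 ?_ (span_ext f g c)
    rintro _ ⟨i, j, α, β, x, y, hx, hy, rfl⟩
    by_cases hx0 : x = 0
    · subst hx0
      have : ext W (0 : W.H X) y = 0 := by rw [ext, map_zero, zero_mul]
      rw [this]; exact Submodule.zero_mem _
    by_cases hy0 : y = 0
    · subst hy0
      have : ext W x (0 : W.H Y) = 0 := by rw [ext, map_zero, mul_zero]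
      rw [this]; exact Submodule.zero_mem _
    have hα := eigenvalue_ne_zero hq hf (ne_bot_of_mem hx hx0)
    have hβ := eigenvalue_ne_zero hq hg (ne_bot_of_mem hy hy0)
    by_cases hS : ((fr (i : ℤ) (Units.mk0 α hα), fr (j : ℤ) (Units.mk0 β hβ)) :
      Pair W.K) ∈ S
    · exact Submodule.mem_sup_left (mem_pieces (α := Units.mk0 α hα) (β := Units.mk0 β hβ) hx hy hS)
    · exact Submodule.mem_sup_right
        (mem_pieces (α := Units.mk0 α hα) (β := Units.mk0 β hβ) hx hy hS)
  obtain ⟨b, hb, n, hn, h⟩ := Submodule.mem_sup.1 h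
  exact ⟨b, hb, n, hn, h.symm⟩

/-- A class which is paired non-trivially with `u × w`, and is a sum of pieces in `S`, has a piece
with this property. -/
lemma exists_piece {S : Set (Pair W.K)} {c e : W.H (X.prod Y)}
    (hc : c ∈ pieces' W f g S) (h : W.tr _ (c * e) ≠ 0) :
    ∃ (i j : ℕ) (α β : W.Kˣ) (x : W.H X) (y : W.H Y), x ∈ part W f i α ∧ y ∈ part W g j β ∧
      (fr (i : ℤ) α, fr (j : ℤ) β) ∈ S ∧ W.tr _ (ext W x y * e) ≠ 0 := by
  by_contra h1
  push Not at h1
  apply h
  clear h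
  rw [pieces'] at hc
  induction hc using Submodule.span_induction with
  | mem c hc =>
    obtain ⟨i, j, α, β, x, y, hx, hy, hS, rfl⟩ := hc
    exact h1 i j α β x y hx hy hS
  | zero => rw [zero_mul, map_zero]
  | add a b _ _ ha hb => rw [add_mul, map_add, ha, hb, add_zero]
  | smul t a _ ha => rw [smul_mul_assoc, map_smul, ha, smul_zero]

/-- A non-zero class which is a sum of pieces in `S` is paired non-trivially with some `u × w`,
whose frequencies are dual to those of a piece in `S`. -/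
lemma exists_dual_piece [IsAlgClosed W.K] (hq : q ≠ 0) (hf : M.mem X f) (hg : M.mem Y g)
    {S : Set (Pair W.K)} {c : W.H (X.prod Y)}
    (hc : c ∈ pieces' W f g S) (h : c ≠ 0) :
    ∃ (i j i' j' : ℕ) (α β α' β' : W.Kˣ) (x u : W.H X) (y w : W.H Y),
      x ∈ part W f i α ∧ y ∈ part W g j β ∧ u ∈ part W f i' α' ∧ w ∈ part W g j' β' ∧
      (fr (i : ℤ) α, fr (j : ℤ) β) ∈ S ∧ W.tr _ (c * ext W u w) ≠ 0 ∧
      W.tr X (x * u) ≠ 0 ∧ W.tr Y (y * w) ≠ 0 := by
  obtain ⟨i', j', α', β', u, w, hu, hw, h1⟩ := exists_dual_ext f g h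
  obtain ⟨hu0, hw0⟩ := ne_zero_of_tr_ext h1
  obtain ⟨i, j, α, β, x, y, hx, hy, hS, h2⟩ := exists_piece hc h1
  obtain ⟨h3, h4⟩ := of_tr_ext_ne_zero hy.2 hu.2 h2
  exact ⟨i, j, i', j', α, β,
    Units.mk0 α' (eigenvalue_ne_zero hq hf (ne_bot_of_mem hu hu0)),
    Units.mk0 β' (eigenvalue_ne_zero hq hg (ne_bot_of_mem hw hw0)),
    x, u, y, w, hx, hy, hu, hw, hS, h1, h3, h4⟩

/-- **Structure of the algebraic classes on products.** -/
theorem algSpan_eq_pieces [IsAlgClosed W.K] (hq : q ≠ 0) (hC : IsClass M C) (hD : IsClass M D)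
    (TC : TateClass W q C) (TD : TateClass W q D) (hX : C X f) (hY : D Y g) :
    algSpan W (X.prod Y) = pieces' W f g {p | Realised' W hq C D p} := by
  have key : ∀ p : Freq W.K, p / p ∈ Subgroup.zpowers (tw W.K hq) := fun p => by
    rw [div_self']; exact Subgroup.one_mem _
  have hle : pieces' W f g {p | Realised' W hq C D p} ≤ algSpan W (X.prod Y) := by
    rw [pieces', Submodule.span_le]
    rintro _ ⟨i, j, α, β, x, y, hx, hy, hS, rfl⟩
    exact alg_of_realised hq hC hD TC TD hS hX hY hx hy (key _) (key _)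
  apply le_antisymm _ hle
  intro c hc
  obtain ⟨b, hb, n, hn, rfl⟩ := split hq (hC.le hX) (hD.le hY) {p | Realised' W hq C D p} c
  have hn' : n ∈ algSpan W (X.prod Y) := by
    have := Submodule.sub_mem _ hc (hle hb)
    rwa [add_sub_cancel_left] at this
  by_cases h0 : n = 0
  · rw [h0, add_zero]; exact hb
  exfalso
  obtain ⟨i, j, i', j', α, β, α', β', x, u, y, w, hx, hy, hu, hw, hS, h1, h2, h3⟩ :=
    exists_dual_piece hq (hC.le hX) (hD.le hY) hn h0
  obtain ⟨d, z, hz, h4⟩ := exists_cycle hn' h1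
  exact hS ⟨X, f, Y, g, i', j', d, α', β', u, w, z, hX, hY, hz, hu, hw,
    pairing_fr hq (hC.le hX) hx hu h2, pairing_fr hq (hD.le hY) hy hw h3, h4⟩

/-- The mean of a cycle. -/
lemma mean_alg {s j : ℕ} {a : W.H X} (ha : a ∈ algClasses W X j) (n : ℕ) :
    ((n : W.K)⁻¹) • ∑ m ∈ Finset.range n, (((q : W.K) ^ (s * j))⁻¹) ^ m • ((act W f ^ s) ^ m) a ∈
      algClasses W X j := by
  have h1 : ∀ (m : ℕ) (b : W.H X), b ∈ algClasses W X j → (act W f ^ m) b ∈ algClasses W X j := by
    intro m b hb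
    induction m with
    | zero => exact hb
    | succ m ih =>
      rw [pow_succ', Module.End.mul_apply]
      obtain ⟨z, hz, hz'⟩ := ih
      exact ⟨ops.pull f z, ops.pull_mem f hz, by rw [W.cl_pull, hz']; rfl⟩
  have h2 : ∀ m : ℕ, (((q : W.K) ^ (s * j))⁻¹) ^ m • ((act W f ^ s) ^ m) a ∈
      algClasses W X j := by
    intro m
    rw [← pow_mul]
    have := alg_smul (W := W) ((((q : ℚ) ^ (s * j))⁻¹) ^ m) (h1 (s * m) a ha)
    push_cast at this
    exact this
  have h3 : ∀ T : Finset ℕ, ∑ m ∈ T, (((q : W.K) ^ (s * j))⁻¹) ^ m • ((act W f ^ s) ^ m) a ∈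
      algClasses W X j := by
    intro T
    induction T using Finset.induction_on with
    | empty => rw [Finset.sum_empty]; exact alg_zero j
    | insert m T hm ih => rw [Finset.sum_insert hm]; exact alg_add (h2 m) ih
  have h4 := alg_smul (W := W) ((n : ℚ)⁻¹) (h3 (Finset.range n))
  push_cast at h4
  exact h4

/-- If `T ^ n x = x` with `n > 0` and `x` is a generalised eigenvector of `T` with eigenvalue `1`
then `T x = x` (in characteristic zero). -/
lemma fixed_of_pow {K V : Type*} [Field K] [CharZero K] [AddCommGroup V] [Module K V]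
    {T : Module.End K V} {x : V} {n : ℕ} (hn : 0 < n) {μ : K} (hμ : μ ≠ 0)
    (h1 : (T ^ n) x = μ ^ n • x)
    (h2 : x ∈ T.maxGenEigenspace μ) : T x = μ • x := by
  rw [Module.End.mem_maxGenEigenspace] at h2
  obtain ⟨r, hr⟩ := h2
  -- the polynomials `X ^ n - μ ^ n` and `(X - μ) ^ r` have the greatest common divisor `X - μ`
  have hd : ∃ Q : Polynomial K, Polynomial.X ^ n - Polynomial.C (μ ^ n) =
      (Polynomial.X - Polynomial.C μ) * Q ∧ Q.eval μ ≠ 0 := by
    refine ⟨∑ i ∈ Finset.range n, Polynomial.X ^ i * Polynomial.C μ ^ (n - 1 - i), ?_, ?_⟩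
    · rw [mul_comm, Polynomial.C_pow]
      exact (geom_sum₂_mul _ _ n).symm
    · rw [Polynomial.eval_finsetSum]
      have : ∀ i ∈ Finset.range n, Polynomial.eval μ (Polynomial.X ^ i *
          Polynomial.C μ ^ (n - 1 - i)) = μ ^ (n - 1) := by
        intro i hi
        rw [Finset.mem_range] at hi
        rw [Polynomial.eval_mul, Polynomial.eval_pow, Polynomial.eval_X, ← Polynomial.C_pow,
          Polynomial.eval_C, ← pow_add]
        congr 1
        omega
      rw [Finset.sum_congr rfl this, Finset.sum_const, Finset.card_range, nsmul_eq_mul]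
      exact mul_ne_zero (Nat.cast_ne_zero.2 hn.ne') (pow_ne_zero _ hμ)
  obtain ⟨Q, hQ, hQ0⟩ := hd
  have hcop : IsCoprime ((Polynomial.X - Polynomial.C μ) ^ r) Q := by
    apply IsCoprime.pow_left
    refine (Polynomial.irreducible_X_sub_C μ).coprime_iff_not_dvd.2 ?_
    rw [Polynomial.dvd_iff_isRoot]
    exact hQ0
  obtain ⟨a, b, hab⟩ := hcop
  have e1 : Polynomial.aeval T ((Polynomial.X - Polynomial.C μ) ^ r) x = 0 := by
    rw [map_pow, map_sub, Polynomial.aeval_X, Polynomial.aeval_C]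
    rw [Algebra.algebraMap_eq_smul_one]
    exact hr
  have e2 : Polynomial.aeval T ((Polynomial.X - Polynomial.C μ) * Q) x = 0 := by
    rw [← hQ, map_sub, map_pow, Polynomial.aeval_X, Polynomial.aeval_C, LinearMap.sub_apply, h1,
      Algebra.algebraMap_eq_smul_one, LinearMap.smul_apply, Module.End.one_apply, sub_self]
  have e3 : Polynomial.aeval T ((Polynomial.X - Polynomial.C μ) *
      (a * (Polynomial.X - Polynomial.C μ) ^ r + b * Q)) x = 0 := by
    have : (Polynomial.X - Polynomial.C μ) *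
      (a * (Polynomial.X - Polynomial.C μ) ^ r + b * Q) =
      ((Polynomial.X - Polynomial.C μ) * a) * (Polynomial.X - Polynomial.C μ) ^ r +
      b * ((Polynomial.X - Polynomial.C μ) * Q) := by ring
    rw [this, map_add, map_mul, map_mul (Polynomial.aeval T) b, LinearMap.add_apply,
      Module.End.mul_apply, Module.End.mul_apply, e1, e2, map_zero, map_zero, add_zero]
  rw [hab, mul_one, map_sub, Polynomial.aeval_X, Polynomial.aeval_C, LinearMap.sub_apply,
    Algebra.algebraMap_eq_smul_one, LinearMap.smul_apply, Module.End.one_apply] at e3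
  exact sub_eq_zero.1 e3

end Pool.Agent.H18.Glue
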