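import Pool.Agent.H18.Glue.Struct

/-!
# The Tate conjecture for products over constant extensions
-/

set_option autoImplicit false

open CategoryTheory AlgebraicGeometry

universe u v

namespace Pool.Agent.H18.Glue

open Pool.Agent.H914 Pool.Agent.H914.VarClass Pool.Agent.H914.VarClass.Obj
  Pool.Agent.H914.WeilCohomology Pool.Agent.H281R3.HT Pool.Agent.Y133.Half Pool.Agent.W458.MF
  Pool.Agent.W536.RR

variable {k : Type u} [Field k] {𝒱 : VarClass k} {ops : CycleOps 𝒱}
  {W : WeilCohomology.{u, v} ops} {q : ℕ} {X Y X' Y' : 𝒱.Obj} {f : X ⟶ X} {g : Y ⟶ Y}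
  {f' : X' ⟶ X'} {g' : Y' ⟶ Y'}
  {M : Models W q} {C D : Cls 𝒱}

/-- The mean over the powers of `T` with weights. -/
noncomputable def mean {K V : Type*} [Field K] [AddCommGroup V] [Module K V] (T : Module.End K V)
    (μ : K) (n : ℕ) : Module.End K V :=
  ((n : K)⁻¹) • ∑ m ∈ Finset.range n, (μ⁻¹) ^ m • T ^ m

section Mean

variable {K V : Type*} [Field K] [CharZero K] [AddCommGroup V] [Module K V] {T : Module.End K V}
  {μ : K} {n : ℕ} {x : V}

omit [CharZero K] in
lemma mean_apply : mean T μ n x = ((n : K)⁻¹) • ∑ m ∈ Finset.range n, (μ⁻¹) ^ m • (T ^ m) x := by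
  rw [mean, LinearMap.smul_apply, LinearMap.sum_apply]
  rfl

omit [CharZero K] in
lemma pow_eig (h : T x = μ • x) (m : ℕ) : (T ^ m) x = μ ^ m • x := by
  induction m with
  | zero => simp
  | succ m ih => rw [pow_succ', Module.End.mul_apply, ih, map_smul, h, smul_smul, pow_succ]

lemma mean_fixed (hn : 0 < n) (hμ : μ ≠ 0) (h : T x = μ • x) : mean T μ n x = x := by
  rw [mean_apply]
  have : ∀ m ∈ Finset.range n, (μ⁻¹) ^ m • (T ^ m) x = x := by
    intro m _
    rw [pow_eig h, smul_smul, ← mul_pow, inv_mul_cancel₀ hμ, one_pow, one_smul]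
  rw [Finset.sum_congr rfl this, Finset.sum_const, Finset.card_range, ← Nat.cast_smul_eq_nsmul K,
    smul_smul, inv_mul_cancel₀ (Nat.cast_ne_zero.2 hn.ne'), one_smul]

omit [CharZero K] in
lemma map_mean (hμ : μ ≠ 0) (h : (T ^ n) x = μ ^ n • x) :
    T (mean T μ n x) = μ • mean T μ n x := by
  have h1 : ∀ m, T ((μ⁻¹) ^ m • (T ^ m) x) = μ • ((μ⁻¹) ^ (m + 1) • (T ^ (m + 1)) x) := by
    intro m
    rw [map_smul, smul_smul, pow_succ' (μ⁻¹), ← mul_assoc, mul_inv_cancel₀ hμ, one_mul,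
      pow_succ' T, Module.End.mul_apply]
  have h2 : ∑ m ∈ Finset.range n, (μ⁻¹) ^ (m + 1) • (T ^ (m + 1)) x =
      ∑ m ∈ Finset.range n, (μ⁻¹) ^ m • (T ^ m) x := by
    have h3 := Finset.sum_range_succ (fun m => (μ⁻¹) ^ m • (T ^ m) x) n
    have h4 := Finset.sum_range_succ' (fun m => (μ⁻¹) ^ m • (T ^ m) x) n
    have h5 : (μ⁻¹) ^ n • (T ^ n) x = (μ⁻¹) ^ 0 • (T ^ 0) x := by
      rw [h, smul_smul, ← mul_pow, inv_mul_cancel₀ hμ, one_pow]
      simp
    rw [h3, h5] at h4
    exact (add_right_cancel h4).symm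
  rw [mean_apply, map_smul, map_sum, Finset.sum_congr rfl (fun m _ => h1 m), ← Finset.smul_sum,
    h2, smul_comm]

end Mean

lemma mean_mem_alg {s j : ℕ} {a : W.H X} (ha : a ∈ algClasses W X j) (n : ℕ) :
    mean (act W f ^ s) ((q : W.K) ^ (s * j)) n a ∈ algClasses W X j := by
  rw [mean_apply]
  exact mean_alg ha n

/-- The cycles which occur in an algebraic class are defined over a common finite extension. -/
lemma exists_common (hf : M.mem X f) (s : ℕ) {j : ℕ} {x : W.H X}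
    (hx : x ∈ spanCycles W X j) : ∃ n, 0 < n ∧ x ∈ Submodule.span W.K {c | c ∈ algClasses W X j ∧
      ((act W f ^ s) ^ n) c = ((q : W.K) ^ (s * j)) ^ n • c} := by
  have hmono : ∀ {n m : ℕ}, Submodule.span W.K {c | c ∈ algClasses W X j ∧
      ((act W f ^ s) ^ n) c = ((q : W.K) ^ (s * j)) ^ n • c} ≤
      Submodule.span W.K {c | c ∈ algClasses W X j ∧
      ((act W f ^ s) ^ (n * m)) c = ((q : W.K) ^ (s * j)) ^ (n * m) • c} := by
    intro n m
    apply Submodule.span_mono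
    rintro c ⟨h1, h2⟩
    refine ⟨h1, ?_⟩
    rw [pow_mul, pow_mul ((q : W.K) ^ (s * j))]
    exact pow_eig h2 m
  rw [spanCycles_eq] at hx
  induction hx using Submodule.span_induction with
  | mem c hc =>
    obtain ⟨z, hz, rfl⟩ := hc
    obtain ⟨n, hn, h⟩ := M.cyc hf hz
    refine ⟨n, hn, Submodule.subset_span ⟨⟨z, hz, rfl⟩, ?_⟩⟩
    rw [Scales] at h
    have := pow_eig h s
    rw [← pow_mul, ← pow_mul] at this
    rw [← pow_mul, ← pow_mul, mul_comm s n, this]
    congr 2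
    ring
  | zero => exact ⟨1, one_pos, Submodule.zero_mem _⟩
  | add a b _ _ ha hb =>
    obtain ⟨n, hn, ha⟩ := ha
    obtain ⟨m, hm, hb⟩ := hb
    refine ⟨n * m, Nat.mul_pos hn hm, Submodule.add_mem _ (hmono ha) ?_⟩
    rw [mul_comm n m]
    exact hmono hb
  | smul t a _ ha =>
    obtain ⟨n, hn, ha⟩ := ha
    exact ⟨n, hn, Submodule.smul_mem _ _ ha⟩

/-- A generalised Tate class over the extension of degree `s` which is a linear combination of
classes of cycles over an algebraic closure is a linear combination of classes of cycles over the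
extension. -/
lemma mem_algOver (hq : q ≠ 0) (hf : M.mem X f) {s j : ℕ} {x : W.H X}
    (hx : x ∈ algSpan W X) (hx' : x ∈ genOver W q f s j) : x ∈ algOver W q f s j := by
  obtain ⟨n, hn, h⟩ := exists_common hf s (spanCycles_of_algSpan hx hx'.2)
  have hμ : (q : W.K) ^ (s * j) ≠ 0 := pow_ne_zero _ (q_ne hq)
  have h1 : ((act W f ^ s) ^ n) x = ((q : W.K) ^ (s * j)) ^ n • x := by
    refine Submodule.span_induction (p := fun x _ => ((act W f ^ s) ^ n) x =
      ((q : W.K) ^ (s * j)) ^ n • x) ?_ ?_ ?_ ?_ h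
    · intro c hc; exact hc.2
    · rw [map_zero, smul_zero]
    · intro a b _ _ ha hb; rw [map_add, ha, hb, smul_add]
    · intro t a _ ha; rw [map_smul, ha, smul_comm]
  have h2 := fixed_of_pow hn hμ h1 hx'.1
  have h3 : mean (act W f ^ s) ((q : W.K) ^ (s * j)) n x ∈ algOver W q f s j := by
    refine Submodule.span_induction (p := fun x _ => mean (act W f ^ s) ((q : W.K) ^ (s * j)) n x ∈
      algOver W q f s j) ?_ ?_ ?_ ?_ h
    · rintro c ⟨hc, hc'⟩
      obtain ⟨z, hz, hz'⟩ := mean_mem_alg (f := f) (q := q) (s := s) hc n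
      exact Submodule.subset_span ⟨z, hz, hz', map_mean hμ hc'⟩
    · rw [map_zero]; exact Submodule.zero_mem _
    · intro a b _ _ ha hb; rw [map_add]; exact Submodule.add_mem _ ha hb
    · intro t a _ ha; rw [map_smul]; exact Submodule.smul_mem _ _ ha
  rwa [mean_fixed hn hμ h2] at h3

lemma algOver_le_tateOver (s j : ℕ) : algOver W q f s j ≤ tateOver W q f s j := by
  rw [algOver, Submodule.span_le]
  rintro _ ⟨z, hz, rfl, h⟩
  exact ⟨Module.End.mem_eigenspace_iff.2 h, W.cl_mem hz⟩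

lemma tateOver_le_genOver (s j : ℕ) : tateOver W q f s j ≤ genOver W q f s j :=
  fun _ hx => ⟨eig_mem_gen (Module.End.mem_eigenspace_iff.1 hx.1), hx.2⟩

lemma tateConj_iff (hq : q ≠ 0) (hf : M.mem X f) {s : ℕ} :
    TateConj W q f s ↔ ∀ j, genOver W q f s j ≤ algSpan W X := by
  constructor
  · intro h j
    rw [(h j).1, (h j).2]
    exact algOver_le s j
  · intro h j
    have h1 : genOver W q f s j ≤ algOver W q f s j := fun x hx => mem_algOver hq hf (h j hx) hx
    exact ⟨le_antisymm (h1.trans (algOver_le_tateOver s j)) (tateOver_le_genOver s j),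
      le_antisymm ((tateOver_le_genOver s j).trans h1) (algOver_le_tateOver s j)⟩

section Pairs

lemma degOf_mul (a b : Freq W.K) : degOf (a * b) = degOf a + degOf b := rfl

lemma valOf_mul (a b : Freq W.K) : valOf (a * b) = valOf a * valOf b := rfl

lemma degOf_inv (a : Freq W.K) : degOf a⁻¹ = -degOf a := rfl

lemma valOf_inv (a : Freq W.K) : valOf a⁻¹ = (valOf a)⁻¹ := rfl

lemma degOf_fr (i : ℤ) (α : W.Kˣ) : degOf (fr i α) = i := rfl

lemma valOf_fr (i : ℤ) (α : W.Kˣ) : valOf (fr i α) = α := rfl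

/-- The group of the pairs of frequencies of Tate classes. -/
noncomputable def tatePairs (W : WeilCohomology.{u, v} ops) (hq : q ≠ 0) (s : ℕ) :
    Subgroup (Pair W.K) where
  carrier := {p | IsTatePair W.K hq s p}
  mul_mem' := by
    rintro a b ⟨c, h1, h2⟩ ⟨d, h3, h4⟩
    have h5 : (a * b).1 * (a * b).2 = (a.1 * a.2) * (b.1 * b.2) :=
      mul_mul_mul_comm a.1 b.1 a.2 b.2
    refine ⟨c + d, ?_, ?_⟩
    · rw [h5, degOf_mul, h1, h3]; ring
    · rw [h5, valOf_mul, mul_pow, h2, h4, mul_add, zpow_add]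
  one_mem' := ⟨0, rfl, by
    have h5 : valOf ((1 : Pair W.K).1 * (1 : Pair W.K).2) = 1 := mul_one (1 : W.Kˣ)
    rw [h5, one_pow, mul_zero, zpow_zero]⟩
  inv_mem' := by
    rintro a ⟨c, h1, h2⟩
    have h5 : (a⁻¹).1 * (a⁻¹).2 = (a.1 * a.2)⁻¹ := (mul_inv a.1 a.2).symm
    refine ⟨-c, ?_, ?_⟩
    · rw [h5, degOf_inv, h1]; ring
    · rw [h5, valOf_inv, inv_pow, h2, mul_neg, zpow_neg]

lemma mem_tatePairs_fr (hq : q ≠ 0) {s i j : ℕ} {α β : W.Kˣ} :
    (fr (i : ℤ) α, fr (j : ℤ) β) ∈ tatePairs W hq s ↔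
      ∃ c : ℕ, i + j = 2 * c ∧ ((α : W.K) * β) ^ s = (q : W.K) ^ (s * c) := by
  constructor
  · rintro ⟨c, h1, h2⟩
    have h1' : (i : ℤ) + j = 2 * c := h1
    obtain ⟨n, rfl⟩ := Int.eq_ofNat_of_zero_le (show 0 ≤ c by omega)
    refine ⟨n, by omega, ?_⟩
    have h3 := congrArg Units.val h2
    rw [← Nat.cast_mul, zpow_natCast, Units.val_pow_eq_pow_val, Units.val_pow_eq_pow_val,
      qUnit_val] at h3
    exact h3
  · rintro ⟨c, h1, h2⟩
    refine ⟨c, ?_, ?_⟩
    · change (i : ℤ) + j = 2 * c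
      omega
    · apply Units.ext
      rw [← Nat.cast_mul, zpow_natCast, Units.val_pow_eq_pow_val, Units.val_pow_eq_pow_val,
        qUnit_val]
      exact h2

lemma tw_pair_mem (hq : q ≠ 0) (s : ℕ) {a b : Freq W.K}
    (ha : a ∈ Subgroup.zpowers (tw W.K hq)) (hb : b ∈ Subgroup.zpowers (tw W.K hq)) :
    (a, b) ∈ tatePairs W hq s := by
  obtain ⟨t, rfl⟩ := Subgroup.mem_zpowers_iff.1 ha
  obtain ⟨t', rfl⟩ := Subgroup.mem_zpowers_iff.1 hb
  refine ⟨t + t', ?_, ?_⟩
  · rw [tw_zpow, tw_zpow]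
    change 2 * t + 2 * t' = 2 * (t + t')
    ring
  · rw [tw_zpow, tw_zpow]
    change (_ ^ t * _ ^ t') ^ s = _
    rw [← zpow_add, ← zpow_natCast, ← zpow_mul]
    congr 1
    ring

lemma tatePairs_of_div (hq : q ≠ 0) {s : ℕ} {p : Pair W.K} {a b : Freq W.K}
    (h : p ∈ tatePairs W hq s) (h1 : p.1 / a ∈ Subgroup.zpowers (tw W.K hq))
    (h2 : p.2 / b ∈ Subgroup.zpowers (tw W.K hq)) : (a, b) ∈ tatePairs W hq s := by
  have h3 := Subgroup.div_mem _ h (tw_pair_mem hq s h1 h2)
  have h4 : @HDiv.hDiv (Pair W.K) (Pair W.K) (Pair W.K) _ p (p.1 / a, p.2 / b) = (a, b) := by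
    refine Prod.ext ?_ ?_
    · exact div_div_cancel p.1 a
    · exact div_div_cancel p.2 b
  rwa [h4] at h3

end Pairs

section Closed

variable [IsAlgClosed W.K]

/-- **The Tate conjecture over the extension of degree `s` for the products** of the varieties in
`C` and in `D` holds if and only if all pairs of frequencies of Tate classes are realised. -/
theorem tate_iff (hq : q ≠ 0) (hC : IsClass M C) (hD : IsClass M D)
    (TC : TateClass W q C) (TD : TateClass W q D) {s : ℕ} :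
    TateProducts W q C D s ↔ ∀ p : Pair W.K, OnProducts' W hq C D s p → Realised' W hq C D p := by
  constructor
  · rintro h p ⟨⟨X, f, i, α, hX, ⟨x, hx, hx0⟩, h1⟩, ⟨Y, g, j, β, hY, ⟨y, hy, hy0⟩, h2⟩, hp⟩
    obtain ⟨c, h3, h4⟩ := (mem_tatePairs_fr hq).1 (tatePairs_of_div hq hp h1 h2)
    have h5 := part_ext hx hy
    have h6 : ext W x y ∈ genOver W q (prodMap f g) s c := by
      refine ⟨?_, h3 ▸ h5.2⟩
      rw [← h4]
      exact gen_pow h5.1 s
    exact realised_of_alg hq hC hD hX hY hx hy hx0 hy0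
      ((tateConj_iff hq (M.prod (hC.le hX) (hD.le hY))).1 (h X f Y g hX hY) c h6) h1 h2
  · intro h X f Y g hX hY
    rw [tateConj_iff hq (M.prod (hC.le hX) (hD.le hY))]
    intro c x hx
    obtain ⟨b, hb, n, hn, hbn⟩ := split hq (hC.le hX) (hD.le hY)
      {p : Pair W.K | degOf (p.1 * p.2) = 2 * (c : ℤ) ∧
        ((valOf (p.1 * p.2) : W.Kˣ) : W.K) ^ s = (q : W.K) ^ (s * c)} x
    have hbgen : b ∈ genOver W q (prodMap f g) s c := by
      rw [pieces'] at hb
      refine Submodule.span_le.2 ?_ hb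
      rintro _ ⟨i, j, α, β, x, y, hx, hy, ⟨hS1, hS2⟩, rfl⟩
      have h5 := part_ext hx hy
      have hS1' : (i : ℤ) + j = 2 * c := hS1
      have hS1'' : i + j = 2 * c := by omega
      have hS2' : ((α : W.K) * β) ^ s = (q : W.K) ^ (s * c) := hS2
      refine ⟨?_, hS1'' ▸ h5.2⟩
      rw [← hS2']
      exact gen_pow h5.1 s
    have hbalg : b ∈ algSpan W (X.prod Y) := by
      rw [pieces'] at hb
      refine Submodule.span_le.2 ?_ hb
      rintro _ ⟨i, j, α, β, x, y, hx, hy, ⟨hS1, hS2⟩, rfl⟩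
      have hS1' : (i : ℤ) + j = 2 * c := hS1
      have hS2' : ((α : W.K) * β) ^ s = (q : W.K) ^ (s * c) := hS2
      by_cases hx0 : x = 0
      · subst hx0
        have : ext W (0 : W.H X) y = 0 := by rw [ext, map_zero, zero_mul]
        rw [this]; exact Submodule.zero_mem _
      by_cases hy0 : y = 0
      · subst hy0
        have : ext W x (0 : W.H Y) = 0 := by rw [ext, map_zero, mul_zero]
        rw [this]; exact Submodule.zero_mem _
      have key : ∀ p : Freq W.K, p / p ∈ Subgroup.zpowers (tw W.K hq) := fun p => by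
        rw [div_self']; exact Subgroup.one_mem _
      have h6 : (fr (i : ℤ) α, fr (j : ℤ) β) ∈ tatePairs W hq s :=
        (mem_tatePairs_fr hq).2 ⟨c, by omega, hS2'⟩
      exact alg_of_realised hq hC hD TC TD
        (h (fr (i : ℤ) α, fr (j : ℤ) β) ⟨⟨X, f, i, α, hX, ⟨x, hx, hx0⟩, key _⟩,
          ⟨Y, g, j, β, hY, ⟨y, hy, hy0⟩, key _⟩, h6⟩) hX hY hx hy (key _) (key _)
    have hngen : n ∈ genOver W q (prodMap f g) s c := by
      have := Submodule.sub_mem _ hx hbgen
      rwa [hbn, add_sub_cancel_left] at this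
    by_cases h0 : n = 0
    · rw [hbn, h0, add_zero]; exact hbalg
    exfalso
    obtain ⟨i, j, i', j', α, β, α', β', x', u, y', w, hx', hy', hu, hw, hS, h1, h2, h3⟩ :=
      exists_dual_piece hq (hC.le hX) (hD.le hY) hn h0
    obtain ⟨e1, e2⟩ := pairing (hC.le hX) hx' hu h2
    obtain ⟨e3, e4⟩ := pairing (hD.le hY) hy' hw h3
    have e5 := part_ext hu hw
    have hdim : (X.prod Y).dim = X.dim + Y.dim := dim_prod X Y
    have e6 : 2 * c + (i' + j') = 2 * (X.dim + Y.dim) := by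
      by_contra hne
      apply h1
      apply W.tr_eq_zero (W.mul_mem hngen.2 e5.2)
      rw [hdim]
      exact hne
    have e7 := eigenvalue_of_tr (M.prod (hC.le hX) (hD.le hY))
      (gen_mul s hngen.1 (gen_pow e5.1 s)) h1
    rw [hdim] at e7
    apply hS
    refine ⟨?_, ?_⟩
    · change (i : ℤ) + j = 2 * c
      omega
    · change ((α * β : W.Kˣ) : W.K) ^ s = _
      rw [Units.val_mul]
      have e8 : (α' : W.K) * β' ≠ 0 := mul_ne_zero α'.ne_zero β'.ne_zero
      have e9 : ((α : W.K) * β) ^ s * ((α' : W.K) * β') ^ s =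
          (q : W.K) ^ (s * c) * ((α' : W.K) * β') ^ s := by
        rw [e7, ← mul_pow, pow_mul']
        congr 1
        rw [pow_add, ← e2, ← e4]
        ring
      exact mul_right_cancel₀ (pow_ne_zero _ e8) e9

end Closed

end Pool.Agent.H18.Glue
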